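import Pool.Agent.H55.Jay.Frc

set_option autoImplicit false
set_option linter.all false

/-!
# Covering by codes, and the points of the compact set
-/

namespace Pool.Agent.H55.Jay

open Pool.Agent.H12.Jayne Pool.Agent.H55.Lav Finset Filter Topology

/-- All coordinates of the code `c` belong to `I`, and all elements of `I` are coordinates of `c`. -/
def Uses (c : Code Ω1) (I : Finset Ω1) : Prop := (∀ i, c.r i ∈ I) ∧ (∀ j, c.a j ∈ I) ∧
  ∀ b ∈ I, (∃ i, c.r i = b) ∨ ∃ j, c.a j = b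

theorem cover' {S : Ω1 → Set (Code Ω1)} {mu : Ω1 → ℕ → List ℕ → ℝ} {k : Ω1 → List ℕ → ℝ}
    (hg : ∀ al, Good S mu k al) {B : Set (Code Ω1)}
    {al : ℕ → Ω1} (hal : StrictMono al)
    (hS : ∀ i, ∀ c : Code Ω1, c ∈ S (al i) ↔ c ∈ B ∧ Below c (al i))
    (hR : ∀ i, Refl k B (al i)) {x : Ω1 → List ℕ → ℝ} (hx : x ∈ KK k) {I : Finset Ω1} {u : Ω1 → Set (List ℕ → ℝ)}
    (hu : ∀ b ∈ I, IsOpen (u b) ∧ x b ∈ u b)
    (hB : ∀ c : Code Ω1, Uses c I → (∀ z ∈ (c.sh.O : Set (ZZ c.sh.s c.sh.n)), (∀ i, z.1 i ∈ u (c.r i)) ∧ ∀ j, z.2 j ∈ u (c.a j)) →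
      c ∈ B) :
    ∃ c ∈ B, (∃ i, Below c (al i)) ∧ ev c x ∈ (c.sh.O : Set _) := by
  classical
  have hk := Good.wts hg
  -- splitting of the coordinates
  obtain ⟨i0, hi0⟩ : ∃ i0, ∀ b ∈ I, b < al i0 ∨ ∀ i, al i ≤ b := by
    have h1 : ∀ b ∈ I, ∀ᶠ i0 in atTop, b < al i0 ∨ ∀ i, al i ≤ b := by
      intro b _
      by_cases h : ∃ i, b < al i
      · obtain ⟨i, hi⟩ := h
        filter_upwards [eventually_ge_atTop i] with i' hi'
        exact Or.inl (hi.trans_le (hal.monotone hi'))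
      · push Not at h
        exact Eventually.of_forall fun _ => Or.inr h
    exact ((Filter.eventually_all_finset I).2 h1).exists
  set I1 := I.filter (· < al i0) with hI1
  set I2 := I.filter (fun b => ¬ b < al i0) with hI2
  set r : Fin #I1 → Ω1 := fun i => I1.orderEmbOfFin rfl i with hr
  set a : Fin #I2 → Ω1 := fun i => I2.orderEmbOfFin rfl i with ha
  have hrm : ∀ i, r i ∈ I1 := fun i => orderEmbOfFin_mem _ _ _
  have ham : ∀ j, a j ∈ I2 := fun j => orderEmbOfFin_mem _ _ _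
  have hrs : ∀ b ∈ I1, ∃ i, r i = b := by
    intro b hb
    have : b ∈ Set.range (I1.orderEmbOfFin rfl) := by rw [range_orderEmbOfFin]; exact hb
    exact this
  have has : ∀ b ∈ I2, ∃ j, a j = b := by
    intro b hb
    have : b ∈ Set.range (I2.orderEmbOfFin rfl) := by rw [range_orderEmbOfFin]; exact hb
    exact this
  set O' : Set (ZZ #I1 #I2) :=
    (Set.pi Set.univ fun i => u (r i)) ×ˢ (Set.pi Set.univ fun j => u (a j)) with hO'
  have hO'open : IsOpen O' :=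
    (isOpen_set_pi Set.finite_univ fun i _ => (hu _ (mem_of_mem_filter _ (hrm i))).1).prod
      (isOpen_set_pi Set.finite_univ fun j _ => (hu _ (mem_of_mem_filter _ (ham j))).1)
  have hmem : ((fun i => x (r i), fun j => x (a j)) : ZZ #I1 #I2) ∈ O' :=
    ⟨fun i _ => (hu _ (mem_of_mem_filter _ (hrm i))).2,
      fun j _ => (hu _ (mem_of_mem_filter _ (ham j))).2⟩
  obtain ⟨O, hOb, hO1, hO2⟩ := (TopologicalSpace.isBasis_countableBasis
    (ZZ #I1 #I2)).exists_subset_of_mem_open hmem hO'open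
  set sh : Shape := ⟨#I1, #I2, ⟨O, hOb⟩⟩ with hsh
  have hcB : (⟨sh, r, a⟩ : Code Ω1) ∈ B := by
    refine hB _ ⟨fun i => mem_of_mem_filter _ (hrm i), fun j => mem_of_mem_filter _ (ham j), fun b hb => ?_⟩
      (fun z hz => ?_)
    · by_cases h : b < al i0
      · exact Or.inl (hrs b (mem_filter.2 ⟨hb, h⟩))
      · exact Or.inr (has b (mem_filter.2 ⟨hb, h⟩))
    · have hz' := hO2 hz
      exact ⟨fun i => hz'.1 i trivial, fun j => hz'.2 j trivial⟩
  have hOopen : IsOpen O := TopologicalSpace.isOpen_of_mem_countableBasis hOb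
  -- a neighbourhood
  have hsec : IsOpen {v : Fin #I2 → List ℕ → ℝ | ((fun i => x (r i), v) : ZZ #I1 #I2) ∈ O} :=
    hOopen.preimage (by fun_prop : Continuous fun v : Fin #I2 → List ℕ → ℝ =>
      ((fun i => x (r i), v) : ZZ #I1 #I2))
  obtain ⟨n0, hn0⟩ := nhd2 hsec hO1
  set e : ℝ := 1 / ((n0 : ℝ) + 1) with he
  have hepos : 0 < e := by positivity
  -- a small jump
  obtain ⟨i, hi, hj⟩ : ∃ i, i0 ≤ i ∧ WW k x (al i) - WW k x (al (i + 1)) < e / 4 := by
    by_contra hcon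
    push Not at hcon
    have h1 : ∀ m : ℕ, WW k x (al (i0 + m)) ≤ WW k x (al i0) - m * (e / 4) := by
      intro m
      induction m with
      | zero => simp
      | succ m ih =>
        have := hcon (i0 + m) (by omega)
        push_cast
        rw [← add_assoc]
        linarith
    obtain ⟨m, hm⟩ := exists_nat_gt (1 / (e / 4))
    have h2 := h1 m
    have h3 := WW_nonneg hk hx (al (i0 + m))
    have h4 := WW_le_one hk hx (al i0)
    rw [div_lt_iff₀ (by positivity)] at hm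
    linarith
  have hlt : al i < al (i + 1) := hal (Nat.lt_succ_self i)
  obtain ⟨c, hc1, hc2, hc3⟩ := catch_pt hg hx hlt (hS (i + 1)) (hR (i + 1)) hcB
    (fun i' => ((mem_filter.1 (hrm i')).2).trans_le (hal.monotone (by omega)))
    (I2.orderEmbOfFin rfl).strictMono
    (fun j => by
      rcases hi0 _ (mem_of_mem_filter _ (ham j)) with h | h
      · exact absurd h (mem_filter.1 (ham j)).2
      · exact h _) hepos (n0 := n0)
    (fun v hv1 hv2 => hn0 v hv1 fun j t ht => by rw [hv2 j t ht, hx.2.1 _ t ht]) hj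
  exact ⟨c, hc1, ⟨i + 1, hc2⟩, hc3⟩

/-! ### Points -/

/-- The points. -/
abbrev Pt : Type := Ω1 → List ℕ → ℝ

/-- The conditions forcing that the point `y` belongs to the compact set. -/
def SK (y : Pt) : Set QJ := {q | (∀ b t, 0 ≤ y b t) ∧ (∀ b t, ¬ V t → y b t = 0) ∧ (∀ b, Add (y b)) ∧ y ⊥ [] = 1 ∧
  (∀ b, q.h ≤ b → ∀ t, y b t = 0) ∧
  ∀ b c, b < c → c < q.h → ∀ t, V t → Ord q.d.k t.length b c → pr (q.d.k b) t * y c t ≤ pr (q.d.k c) t * y b t}

/-- The system of weights `k` extends the condition `q`. -/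
def Ext (k : Ω1 → List ℕ → ℝ) (q : QJ) : Prop := ∀ b < q.h, k b = q.d.k b

lemma sk_iff {k : Ω1 → List ℕ → ℝ} (hk : Wts k) {q : QJ} (he : Ext k q) {y : Pt} :
    q ∈ SK y ↔ y ∈ KK k ∧ ∀ b, q.h ≤ b → ∀ t, y b t = 0 := by
  constructor
  · rintro ⟨h1, h2, h3, h4, h5, h6⟩
    refine ⟨⟨h1, h2, h3, h4, fun b c hbc t ht ho => ?_⟩, h5⟩
    by_cases hc : c < q.h
    · rw [he b (hbc.trans hc), he c hc]
      refine h6 b c hbc hc t ht ?_
      intro s hs hl
      rw [← he b (hbc.trans hc), ← he c hc]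
      exact ho s hs hl
    · rw [h5 c (not_lt.mp hc), mul_zero]
      exact mul_nonneg (hk.ppos c ht).le (h1 b t)
  · rintro ⟨⟨h1, h2, h3, h4, h6⟩, h5⟩
    refine ⟨h1, h2, h3, h4, h5, fun b c hbc hc t ht ho => ?_⟩
    rw [← he b (hbc.trans hc), ← he c hc]
    refine h6 b c hbc t ht ?_
    intro s hs hl
    rw [he b (hbc.trans hc), he c hc]
    exact ho s hs hl

lemma sk_mono {y : Pt} {p q : QJ} (h : p ∈ SK y) (hq : q ≤ p) : q ∈ SK y := by
  obtain ⟨k', h1, h2⟩ := exists_total q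
  have hk := Good.wts h2
  have he : Ext k' p := fun b hb => (h1 b (hb.trans_le hq.1)).trans (hq.2 b hb).2.2
  rw [sk_iff hk h1]
  rw [sk_iff hk he] at h
  exact ⟨h.1, fun b hb => h.2 b (hq.1.trans hb)⟩

/-- The restriction of a point to the coordinates below `α`. -/
noncomputable def rst (α : Ω1) (y : Pt) : Pt := fun b => if b < α then y b else fun _ => 0

lemma rst_lt {α : Ω1} {y : Pt} {b : Ω1} (h : b < α) : rst α y b = y b := if_pos h
lemma rst_ge {α : Ω1} {y : Pt} {b : Ω1} (h : α ≤ b) (t : List ℕ) : rst α y b t = 0 := by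
  unfold rst
  rw [if_neg (not_lt.mpr h)]

/-- Restrictions of points of the compact set belong to it. -/
lemma rst_mem {k : Ω1 → List ℕ → ℝ} (hk : Wts k) {α : Ω1} (hα : α ≠ ⊥) {y : Pt} (hy : y ∈ KK k) : rst α y ∈ KK k := by
  obtain ⟨h1, h2, h3, h4, h6⟩ := hy
  have h0 : ∀ b, (b < α ∧ rst α y b = y b) ∨ (α ≤ b ∧ ∀ t, rst α y b t = 0) := fun b => by
    rcases lt_or_ge b α with h | h
    · exact Or.inl ⟨h, rst_lt h⟩
    · exact Or.inr ⟨h, rst_ge h⟩
  refine ⟨fun b t => ?_, fun b t ht => ?_, fun b => ?_, ?_, fun b c hbc t ht ho => ?_⟩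
  · rcases h0 b with ⟨_, h⟩ | ⟨_, h⟩
    · rw [h]; exact h1 b t
    · rw [h]
  · rcases h0 b with ⟨_, h⟩ | ⟨_, h⟩
    · rw [h]; exact h2 b t ht
    · rw [h]
  · rcases h0 b with ⟨_, h⟩ | ⟨_, h⟩
    · rw [h]; exact h3 b
    · intro s _
      rw [h]
      symm
      exact sum_eq_zero (fun a _ => h _)
  · rw [rst_lt (bot_lt_iff_ne_bot.mpr hα)]; exact h4
  · rcases h0 c with ⟨hc, h⟩ | ⟨_, h⟩
    · rw [h, rst_lt (hbc.trans hc)]
      exact h6 b c hbc t ht ho
    · rw [h, mul_zero]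
      refine mul_nonneg (hk.ppos c ht).le ?_
      rcases h0 b with ⟨_, h⟩ | ⟨_, h⟩
      · rw [h]; exact h1 b t
      · rw [h]

/-- The conditions guessing a sequence of functions. -/
def Mg (y : ℕ → List ℕ → ℝ) : Set QJ := {q | ∃ al, al ≠ ⊥ ∧ al < q.h ∧ ∀ i, q.d.mu al i = y i}

lemma mg_dense (y : ℕ → List ℕ → ℝ) (p : QJ) : ∃ q ∈ Mg y, q ≤ p := by
  obtain ⟨p', h1, h2⟩ := exists_higher p ⊥
  obtain ⟨q, h3, h4, _, h6⟩ := exists_guess p' ∅ y
  exact ⟨q, ⟨p'.h, h2.ne', h4, fun i => by rw [h6]⟩, h3.trans h1⟩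

/-- Heights are unbounded. -/
lemma height_dense (α : Ω1) (p : QJ) : ∃ q ∈ {q : QJ | α < q.h}, q ≤ p := by
  obtain ⟨q, h1, h2⟩ := exists_higher p α
  exact ⟨q, h2, h1⟩

end Pool.Agent.H55.Jay
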