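import Pool.Agent.H55.Jay.Op
import Pool.Agent.H12.Jayne.Example

set_option autoImplicit false
set_option linter.all false

/-!
# Covers by codes
-/

namespace Pool.Agent.H55.Jay

open Pool.Agent.H12.Jayne Pool.Agent.H55.Lav Pool.Agent.H55.SC Pool.Agent.H55.ZFU Pool.Agent.H55.Sig Pool.Agent.H55.CS
open Pool.Agent.H55.JY

/-- The conditions deciding all codes below `α`. -/
def DF (F : Code Ω1 → Set QJ) (α : Ω1) : Set QJ := {q | ∀ c, Below c α → q ∈ F c ∨ ∀ r ≤ q, r ∉ F c}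

/-- The codes below `α` which are forced by `q`. -/
def Bs (F : Code Ω1 → Set QJ) (α : Ω1) (q : QJ) : Set (Code Ω1) := {c | Below c α ∧ q ∈ F c}

/-- Closure properties of `N` used for covers. -/
structure CvOk (N : Set (Un QJ)) : Prop where
  df : ∀ F : Code Ω1 → Set QJ, InT N F → ∀ α : Ω1, InT N α → InT N (DF F α)
  bs : ∀ F : Code Ω1 → Set QJ, InT N F → ∀ α : Ω1, InT N α → ∀ q : QJ, InT N q → InT N (Bs F α q)
  unc : ∀ q : QJ, InT N q → ∀ B : Set (Code Ω1), InT N B → (∃ y, q ∈ SK y ∧ ∀ c ∈ B, ev c y ∉ (c.sh.O : Set (ZZ c.sh.s c.sh.n))) →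
    ∃ y, (q ∈ SK y ∧ ∀ c ∈ B, ev c y ∉ (c.sh.O : Set (ZZ c.sh.s c.sh.n))) ∧ InT N y

lemma cvOk_club : ∀ᶠ N in club (Un QJ), CvOk N := by
  have h1 : ∀ᶠ N in club (Un QJ), ∀ F : Code Ω1 → Set QJ, InT N F → ∀ α : Ω1, InT N α → InT N (DF F α) :=
    diagT (fun F => diagT (fun α => club_inT _))
  have h2 : ∀ᶠ N in club (Un QJ), ∀ F : Code Ω1 → Set QJ, InT N F → ∀ α : Ω1, InT N α → ∀ q : QJ, InT N q →
      InT N (Bs F α q) := diagT (fun F => diagT (fun α => diagT (fun q => club_inT _)))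
  have h3 : ∀ᶠ N in club (Un QJ), ∀ q : QJ, InT N q → ∀ B : Set (Code Ω1), InT N B →
      (∃ y, q ∈ SK y ∧ ∀ c ∈ B, ev c y ∉ (c.sh.O : Set (ZZ c.sh.s c.sh.n))) →
      ∃ y, (q ∈ SK y ∧ ∀ c ∈ B, ev c y ∉ (c.sh.O : Set (ZZ c.sh.s c.sh.n))) ∧ InT N y := by
    refine diagT (fun q => diagT (fun B => ?_))
    by_cases h : ∃ y, q ∈ SK y ∧ ∀ c ∈ B, ev c y ∉ (c.sh.O : Set (ZZ c.sh.s c.sh.n))
    · obtain ⟨y, hy⟩ := h
      exact (club_inT y).mono (fun N hN _ => ⟨y, hy, hN⟩)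
    · exact Filter.Eventually.of_forall (fun N h' => (h h').elim)
  filter_upwards [h1, h2, h3] with N a1 a2 a3
  exact ⟨a1, a2, a3⟩

lemma df_dense {F : Code Ω1 → Set QJ} (hF : ∀ c p q, p ∈ F c → q ≤ p → q ∈ F c) (α : Ω1) (p : QJ) :
    ∃ q ∈ DF F α, q ≤ p := by
  obtain ⟨q, h1, h2⟩ := decide_ctb (countable_below α) F hF p
  exact ⟨q, h2, h1⟩

/-- The point `y` has a basic neighbourhood all of whose codes satisfy `P`. -/
def Nb (P : Code Ω1 → Prop) (y : Pt) : Prop := ∃ (I : Finset Ω1) (u : Ω1 → Set (List ℕ → ℝ)),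
  (∀ b ∈ I, IsOpen (u b) ∧ y b ∈ u b) ∧ ∀ c : Code Ω1, Uses c I →
    (∀ z ∈ (c.sh.O : Set (ZZ c.sh.s c.sh.n)), (∀ i, z.1 i ∈ u (c.r i)) ∧ ∀ j, z.2 j ∈ u (c.a j)) → P c

lemma Nb.mono {P P' : Code Ω1 → Prop} {y : Pt} (h : Nb P y) (hP : ∀ c, P c → P' c) : Nb P' y := by
  obtain ⟨I, u, h1, h2⟩ := h
  exact ⟨I, u, h1, fun c hc hz => hP c (h2 c hc hz)⟩

section
variable {N : Set (Un QJ)} {G : Set QJ} (ok : NOk N) (fok : FOk N) (zok : ZOk N) (cok : COk N) (ook : OOk N)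
  (re : ReOk N) (pn : PnOk N) (gn : GnOk N) (cv : CvOk N) (gen : GenF N G)

include gn gen in
lemma exists_high (A : Finset Ω1) (hA : ∀ b ∈ A, InT N b) : ∃ q ∈ G, ∀ b ∈ A, b < q.h := by
  classical
  induction A using Finset.induction_on with
  | empty =>
    obtain ⟨q, hq, _⟩ := exists_height gn gen gn.bot
    exact ⟨q, hq, by simp⟩
  | insert b A _ ih =>
    obtain ⟨p1, hp1, h6⟩ := ih (fun b hb => hA b (Finset.mem_insert_of_mem hb))
    obtain ⟨p2, hp2, h7⟩ := exists_height gn gen (hA b (Finset.mem_insert_self _ _))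
    obtain ⟨p3, hp3, h8, h9⟩ := gen.dir p1 hp1 p2 hp2
    refine ⟨p3, hp3, fun c hc => ?_⟩
    rcases Finset.mem_insert.mp hc with h | h
    · rw [h]; exact h7.trans_le h9.1
    · exact (h6 c h).trans_le h8.1

include gn gen in
lemma nb_of_sem {O : MM N G} (hO : Sem pn O) {y : Pt} (hy : InT N y) (hyO : EE (pv pn G hy) O) :
    Nb (fun c => InT N c ∧ ∀ y' (h' : InT N y'), Ht G (SK y') → ev c y' ∈ closure (c.sh.O : Set (ZZ c.sh.s c.sh.n)) →
      EE (pv pn G h') O) y := by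
  classical
  obtain ⟨L, e, hL, he, h3⟩ := hO.2 y hy hyO
  refine ⟨L.image Prod.fst, fun b => {v | ∀ i ∈ L, i.1 = b → |v i.2 - pe y i| < e / 2}, fun b hb => ⟨?_, ?_⟩, fun c hc hz => ⟨?_, ?_⟩⟩
  · have : {v : List ℕ → ℝ | ∀ i ∈ L, i.1 = b → |v i.2 - pe y i| < e / 2} =
        ⋂ i ∈ (L : Set (Ω1 × List ℕ)), {v : List ℕ → ℝ | i.1 = b → |v i.2 - pe y i| < e / 2} := by
      ext v; simp
    show IsOpen {v : List ℕ → ℝ | ∀ i ∈ L, i.1 = b → |v i.2 - pe y i| < e / 2}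
    rw [this]
    refine (Finset.finite_toSet L).isOpen_biInter (fun i _ => ?_)
    by_cases h : i.1 = b
    · have h' : {v : List ℕ → ℝ | i.1 = b → |v i.2 - pe y i| < e / 2} = {v : List ℕ → ℝ | |v i.2 - pe y i| < e / 2} := by
        ext v; simp [h]
      rw [h']
      exact isOpen_lt (by fun_prop) continuous_const
    · have h' : {v : List ℕ → ℝ | i.1 = b → |v i.2 - pe y i| < e / 2} = Set.univ := by
        ext v; simp [h]
      rw [h']; exact isOpen_univ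
  · rintro i hi rfl
    show |pe y i - pe y i| < e / 2
    simp [he]
  · obtain ⟨q, hq, hh⟩ := exists_high gn gen (L.image Prod.fst) (fun b hb => by
      obtain ⟨i, hi, rfl⟩ := Finset.mem_image.mp hb
      exact pn.i1 i (hL i hi))
    exact gn.seg q.h (gn.hts q (gen.sub q hq)) c ⟨fun i => hh _ (hc.1 i), fun j => hh _ (hc.2.1 j)⟩
  · intro y' hy' hS' hev
    refine h3 y' hy' hS' (fun i hi => ?_)
    have h4 : i.1 ∈ L.image Prod.fst := Finset.mem_image_of_mem _ hi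
    have h5 : |pe y' i - pe y i| ≤ e / 2 := by
      rcases hc.2.2 i.1 h4 with ⟨j, hj⟩ | ⟨j, hj⟩
      · have hcl : IsClosed {z : ZZ c.sh.s c.sh.n | |z.1 j i.2 - pe y i| ≤ e / 2} :=
          isClosed_le (by fun_prop) continuous_const
        have hsub : (c.sh.O : Set (ZZ c.sh.s c.sh.n)) ⊆ {z : ZZ c.sh.s c.sh.n | |z.1 j i.2 - pe y i| ≤ e / 2} :=
          fun z hz' => ((hz z hz').1 j i hi hj.symm).le
        have h6 := closure_minimal hsub hcl hev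
        have h7 : |y' (c.r j) i.2 - pe y i| ≤ e / 2 := h6
        rw [hj] at h7
        exact h7
      · have hcl : IsClosed {z : ZZ c.sh.s c.sh.n | |z.2 j i.2 - pe y i| ≤ e / 2} :=
          isClosed_le (by fun_prop) continuous_const
        have hsub : (c.sh.O : Set (ZZ c.sh.s c.sh.n)) ⊆ {z : ZZ c.sh.s c.sh.n | |z.2 j i.2 - pe y i| ≤ e / 2} :=
          fun z hz' => ((hz z hz').2 j i hi hj.symm).le
        have h6 := closure_minimal hsub hcl hev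
        have h7 : |y' (c.a j) i.2 - pe y i| ≤ e / 2 := h6
        rw [hj] at h7
        exact h7
    linarith

include gn cv gen in
theorem gcover' {d : Tr} (t : Tot G d) {F : Code Ω1 → Set QJ} (hF : ∀ c p q, p ∈ F c → q ≤ p → q ∈ F c) (hFN : InT N F) :
    ∃ α, InT N α ∧ ∃ q ∈ G, (∀ c, Below c α → (Ht G (F c) ↔ q ∈ F c)) ∧
      ∀ x ∈ KK d.k, Nb (fun c => InT N c ∧ Ht G (F c)) x →
        ∃ c ∈ Bs F α q, ev c x ∈ (c.sh.O : Set (ZZ c.sh.s c.sh.n)) := by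
  obtain ⟨α, hα, h1⟩ := gcover gn gen t hF hFN
  obtain ⟨q, hq, h2⟩ := gen.gen _ (cv.df F hFN α hα) (df_dense hF α)
  have h3 : ∀ c, Below c α → (Ht G (F c) ↔ q ∈ F c) := by
    intro c hc
    constructor
    · rintro ⟨r, hr, h5⟩
      rcases h2 c hc with h | h
      · exact h
      · obtain ⟨s, _, h6, h7⟩ := gen.dir q hq r hr
        exact (h s h6 (hF _ _ _ h5 h7)).elim
    · intro h; exact ⟨q, hq, h⟩
  refine ⟨α, hα, q, hq, h3, fun x hx hN => ?_⟩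
  obtain ⟨I, u, h4, h5⟩ := hN
  obtain ⟨c, h6, h7, h8⟩ := h1 x hx I u h4 h5
  exact ⟨c, ⟨h7, (h3 c h7).mp h6⟩, h8⟩

lemma ev_rst {c : Code Ω1} {α β : Ω1} (hc : Below c α) (h : α ≤ β) (y : Pt) : ev c (rst β y) = ev c y := by
  unfold ev
  refine Prod.ext ?_ ?_
  · funext i
    exact rst_lt ((hc.1 i).trans_le h)
  · funext j
    exact rst_lt ((hc.2 j).trans_le h)

include gn cv gen in
/-- Finite covers. -/
theorem fcover {d : Tr} (t : Tot G d) {F : Code Ω1 → Set QJ} (hF : ∀ c p q, p ∈ F c → q ≤ p → q ∈ F c) (hFN : InT N F)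
    (hcov : ∀ y, InT N y → Ht G (SK y) → Nb (fun c => InT N c ∧ Ht G (F c)) y) :
    ∃ α, InT N α ∧ ∃ J : Finset (Code Ω1), (∀ c ∈ J, Below c α ∧ Ht G (F c)) ∧
      ∀ y ∈ KK d.k, ∃ c ∈ J, ev c y ∈ (c.sh.O : Set (ZZ c.sh.s c.sh.n)) := by
  obtain ⟨α, hα, q, hq, h1, h2⟩ := gcover' gn cv gen t hF hFN
  obtain ⟨p, hp, hαp⟩ := exists_height gn gen hα
  have hBN := cv.bs F hFN α hα q (gen.sub q hq)
  have hne : p.h ≠ ⊥ := (bot_le.trans_lt hαp).ne'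
  let KQ : Set Pt := KK d.k ∩ {y | ∀ b, p.h ≤ b → ∀ t, y b t = 0}
  have hKQ : IsCompact KQ := by
    refine (isCompact_KK t.wts).inter_right ?_
    have : {y : Pt | ∀ b, p.h ≤ b → ∀ t, y b t = 0} = ⋂ (b : Ω1) (_ : p.h ≤ b) (t : List ℕ), {y : Pt | y b t = 0} := by
      ext y; simp
    rw [this]
    exact isClosed_iInter (fun b => isClosed_iInter (fun _ => isClosed_iInter (fun t => isClosed_eq (by fun_prop) continuous_const)))
  have hcv : KQ ⊆ ⋃ c ∈ Bs F α q, {y : Pt | ev c y ∈ (c.sh.O : Set (ZZ c.sh.s c.sh.n))} := by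
    by_contra hcon
    rw [Set.not_subset] at hcon
    obtain ⟨y, hy, hny⟩ := hcon
    obtain ⟨y', ⟨h3, h4⟩, h5⟩ := cv.unc p (gen.sub p hp) _ hBN ⟨y, (t.sk hp).mpr hy, fun c hc hev =>
      hny (Set.mem_biUnion hc hev)⟩
    have h6 : Ht G (SK y') := ⟨p, hp, h3⟩
    obtain ⟨c, hc, hev⟩ := h2 y' (t.mem h6) (hcov y' h5 h6)
    exact h4 c hc hev
  obtain ⟨b', hb', hfin, hsub⟩ := hKQ.elim_finite_subcover_image (fun c _ =>
    (TopologicalSpace.isOpen_of_mem_countableBasis c.sh.O.2).preimage (continuous_ev c)) hcv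
  refine ⟨α, hα, hfin.toFinset, fun c hc => ?_, fun y hy => ?_⟩
  · have h3 := hb' (hfin.mem_toFinset.mp hc)
    exact ⟨h3.1, (h1 c h3.1).mpr h3.2⟩
  · have h3 : rst p.h y ∈ KQ := ⟨rst_mem t.wts hne hy, fun b hb t => rst_ge hb t⟩
    obtain ⟨c, hc, hev⟩ := Set.mem_iUnion₂.mp (hsub h3)
    refine ⟨c, hfin.mem_toFinset.mpr hc, ?_⟩
    have h4 : ev c (rst p.h y) ∈ (c.sh.O : Set (ZZ c.sh.s c.sh.n)) := hev
    rwa [ev_rst (hb' hc).1 hαp.le] at h4

end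

end Pool.Agent.H55.Jay
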