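import Pool.Agent.H12.Jayne.Club
import Pool.Agent.H12.Jayne.NonSep
import Pool.Agent.H55.Sig.Sig1

set_option autoImplicit false
set_option linter.all false

/-!
# The forcing adding a system of weights
-/

namespace Pool.Agent.H55.Jay

open Pool.Agent.H12.Jayne Pool.Agent.H55.Lav

noncomputable instance : OrderBot Ω1 := WellFoundedLT.toOrderBot Ω1

/-! ### Locality -/

lemma inv_congrS {k : Ω1 → List ℕ → ℝ} {S S' : Ω1 → Set (Code Ω1)} {F : Finset Ω1} (h : Inv k S F)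
    (hS : ∀ b ∈ F, S b = S' b) : Inv k S' F := by
  obtain ⟨h1, h2, h3⟩ := h
  refine ⟨h1, h2, fun al hal hne sh r hr ga hga n => ?_⟩
  rw [← hS al hal]
  exact h3 al hal hne sh r hr ga hga n

lemma good_congr {S S' : Ω1 → Set (Code Ω1)} {mu mu' : Ω1 → ℕ → List ℕ → ℝ} {k k' : Ω1 → List ℕ → ℝ} {al : Ω1}
    (hS : ∀ b ≤ al, S b = S' b) (hm : mu al = mu' al) (hk : ∀ b ≤ al, k b = k' b) (h : Good S mu k al) :
    Good S' mu' k' al := by
  have h0 := h.congr hk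
  obtain ⟨h1, h2, h3, h4, h5⟩ := h0
  rw [hm] at h4
  exact ⟨h1, h2, h3, h4, fun F hF => inv_congrS (h5 F hF) (fun b hb => hS b (hF b hb))⟩

/-! ### The conditions -/

/-- The data of a condition. -/
structure Tr where
  /-- the guesses -/
  S : Ω1 → Set (Code Ω1)
  /-- the measures -/
  mu : Ω1 → ℕ → List ℕ → ℝ
  /-- the weights -/
  k : Ω1 → List ℕ → ℝ

/-- The conditions: good data below a countable ordinal. -/
structure QJ where
  /-- the height -/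
  h : Ω1
  /-- the data -/
  d : Tr
  good : ∀ b < h, Good d.S d.mu d.k b

/-- The data agree at `b`. -/
def Agr (d d' : Tr) (b : Ω1) : Prop := d.S b = d'.S b ∧ d.mu b = d'.mu b ∧ d.k b = d'.k b

lemma Agr.symm {d d' : Tr} {b : Ω1} (h : Agr d d' b) : Agr d' d b := ⟨h.1.symm, h.2.1.symm, h.2.2.symm⟩
lemma Agr.trans {d d' d'' : Tr} {b : Ω1} (h : Agr d d' b) (h' : Agr d' d'' b) : Agr d d'' b :=
  ⟨h.1.trans h'.1, h.2.1.trans h'.2.1, h.2.2.trans h'.2.2⟩
lemma Agr.refl (d : Tr) (b : Ω1) : Agr d d b := ⟨rfl, rfl, rfl⟩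

instance : Preorder QJ where
  le q p := p.h ≤ q.h ∧ ∀ b < p.h, Agr q.d p.d b
  le_refl p := ⟨le_rfl, fun b _ => Agr.refl _ _⟩
  le_trans r q p h1 h2 := ⟨h2.1.trans h1.1, fun b hb => (h1.2 b (hb.trans_le h2.1)).trans (h2.2 b hb)⟩

lemma qj_le {q p : QJ} : q ≤ p ↔ p.h ≤ q.h ∧ ∀ b < p.h, Agr q.d p.d b := Iff.rfl

noncomputable instance : OrderTop QJ where
  top := ⟨⊥, ⟨fun _ => ∅, fun _ _ _ => 0, fun _ _ => 1⟩, fun b hb => absurd hb (not_lt_bot)⟩
  le_top q := ⟨bot_le, fun b hb => absurd hb (not_lt_bot)⟩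

lemma good_of_agr {d d' : Tr} {al : Ω1} (h : ∀ b ≤ al, Agr d d' b) (hg : Good d.S d.mu d.k al) :
    Good d'.S d'.mu d'.k al :=
  good_congr (fun b hb => (h b hb).1) (h al le_rfl).2.1 (fun b hb => (h b hb).2.2) hg

/-- Countably many pairwise compatible conditions have a union. -/
theorem exists_union {ι : Type} [Countable ι] (p : ι → QJ) (hc : ∀ i j, ∃ r, r ≤ p i ∧ r ≤ p j) :
    ∃ q : QJ, (∀ i, q ≤ p i) ∧ ∀ α, α < q.h → ∃ i, α < (p i).h := by
  classical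
  have hcount : {α | ∃ i, α < (p i).h}.Countable := by
    have : {α | ∃ i, α < (p i).h} = ⋃ i, Set.Iio (p i).h := by ext; simp
    rw [this]
    exact Set.countable_iUnion (fun i => om1_Iio _)
  obtain ⟨δ, hδ⟩ := om1_seg hcount (fun α ⟨i, hi⟩ β hβ => ⟨i, hβ.trans hi⟩)
  have hag : ∀ i j b, b < (p i).h → b < (p j).h → Agr (p i).d (p j).d b := by
    intro i j b hi hj
    obtain ⟨r, h1, h2⟩ := hc i j
    exact (h1.2 b hi).symm.trans (h2.2 b hj)
  let d : Tr := ⟨fun α => if h : ∃ i, α < (p i).h then (p h.choose).d.S α else ∅,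
    fun α => if h : ∃ i, α < (p i).h then (p h.choose).d.mu α else fun _ _ => 0,
    fun α => if h : ∃ i, α < (p i).h then (p h.choose).d.k α else fun _ => 0⟩
  have hd : ∀ i b, b < (p i).h → Agr (p i).d d b := by
    intro i b hb
    have h : ∃ i, b < (p i).h := ⟨i, hb⟩
    have h1 := hag i h.choose b hb h.choose_spec
    refine ⟨?_, ?_, ?_⟩
    · rw [h1.1]; simp only [d]; rw [dif_pos h]
    · rw [h1.2.1]; simp only [d]; rw [dif_pos h]
    · rw [h1.2.2]; simp only [d]; rw [dif_pos h]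
  refine ⟨⟨δ, d, fun b hb => ?_⟩, fun i => ⟨?_, fun b hb => (hd i b hb).symm⟩, fun α hα => (hδ α).mpr hα⟩
  · obtain ⟨i, hi⟩ := (hδ b).mpr hb
    exact good_of_agr (fun c hc => hd i c (hc.trans_lt hi)) ((p i).good b hi)
  · show (p i).h ≤ δ
    by_contra hcon
    push Not at hcon
    exact lt_irrefl _ ((hδ δ).mp ⟨i, hcon⟩)

lemma qj_anti {p : ℕ → QJ} (h : ∀ n, p (n + 1) ≤ p n) {m n : ℕ} (hmn : m ≤ n) : p n ≤ p m := by
  induction n, hmn using Nat.le_induction with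
  | base => exact le_rfl
  | succ n _ ih => exact (h n).trans ih

lemma exists_lim {p : ℕ → QJ} (h : ∀ n, p (n + 1) ≤ p n) :
    ∃ q : QJ, (∀ i, q ≤ p i) ∧ ∀ α, α < q.h → ∃ i, α < (p i).h :=
  exists_union p (fun i j => ⟨p (max i j), qj_anti h (le_max_left _ _), qj_anti h (le_max_right _ _)⟩)

theorem qj_closed : Sig.SClosed QJ := fun p h => by
  obtain ⟨q, hq, _⟩ := exists_lim h
  exact ⟨q, hq⟩

/-! ### Extensions -/

/-- Every condition extends to a total system of weights. -/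
theorem exists_total (q : QJ) : ∃ k' : Ω1 → List ℕ → ℝ, (∀ b < q.h, k' b = q.d.k b) ∧
    ∀ al, Good q.d.S q.d.mu k' al := by
  classical
  obtain ⟨k, hk⟩ := exists_rec (W := Ω1) (X := List ℕ → ℝ)
    (fun k al => Good q.d.S q.d.mu k al ∧ (al < q.h → k al = q.d.k al))
    (fun k k' al h hg => ⟨hg.1.congr h, fun h' => (h al le_rfl).symm.trans (hg.2 h')⟩) (fun k al hg => by
      by_cases hal : al < q.h
      · refine ⟨q.d.k al, (q.good al hal).congr (fun b hb => ?_), fun _ => by simp⟩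
        rcases hb.eq_or_lt with rfl | hb
        · simp
        · rw [Function.update_of_ne hb.ne]
          exact ((hg b hb).2 (hb.trans hal)).symm
      · by_cases hbot : al = ⊥
        · obtain ⟨k0, hk0⟩ := exists_good (W := Ω1) om1_Iio q.d.S q.d.mu
          refine ⟨k0 al, (hk0 al).congr (fun b hb => ?_), fun h => absurd h hal⟩
          have hb' : b = al := by
            rw [hbot] at hb ⊢
            exact le_bot_iff.mp hb
          rw [hb']; simp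
        · obtain ⟨x, hx⟩ := Pool.Agent.H12.Jayne.stage hbot (om1_Iio al) (fun b hb => (hg b hb).1)
          exact ⟨x, hx, fun h => absurd h hal⟩)
  exact ⟨k, fun b hb => (hk b).2 hb, fun al => (hk al).1⟩

lemma exists_higher (p : QJ) (α : Ω1) : ∃ q ≤ p, α < q.h := by
  obtain ⟨k', h1, h2⟩ := exists_total p
  obtain ⟨β, hβ⟩ := om1_lt (max p.h α)
  refine ⟨⟨β, ⟨p.d.S, p.d.mu, k'⟩, fun b _ => h2 b⟩, ⟨((le_max_left _ _).trans_lt hβ).le, fun b hb => ⟨rfl, rfl, ?_⟩⟩,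
    (le_max_right _ _).trans_lt hβ⟩
  exact h1 b hb

/-- The next guess can be prescribed. -/
lemma exists_guess (p : QJ) (S0 : Set (Code Ω1)) (mu0 : ℕ → List ℕ → ℝ) :
    ∃ q ≤ p, p.h < q.h ∧ q.d.S p.h = S0 ∧ q.d.mu p.h = mu0 := by
  classical
  let d : Tr := ⟨Function.update p.d.S p.h S0, Function.update p.d.mu p.h mu0, p.d.k⟩
  have hd : ∀ b < p.h, Agr p.d d b := fun b hb => ⟨by simp [d, Function.update_of_ne hb.ne],
    by simp [d, Function.update_of_ne hb.ne], rfl⟩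
  let p' : QJ := ⟨p.h, d, fun b hb => good_of_agr (fun c hc => hd c (hc.trans_lt hb)) (p.good b hb)⟩
  have hp' : p' ≤ p := ⟨le_rfl, fun b hb => (hd b hb).symm⟩
  obtain ⟨k', h1, h2⟩ := exists_total p'
  obtain ⟨β, hβ⟩ := om1_lt p.h
  refine ⟨⟨β, ⟨d.S, d.mu, k'⟩, fun b _ => h2 b⟩, ⟨hβ.le, fun b hb => ?_⟩, hβ, ?_, ?_⟩
  · exact ⟨(hd b hb).1.symm, (hd b hb).2.1.symm, h1 b hb⟩
  · simp [d]
  · simp [d]

/-! ### Codes and tasks -/

/-- The tasks of reflection. -/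
structure DT where
  /-- the shape -/
  sh : Shape
  /-- the fixed coordinates -/
  r : Fin sh.s → Ω1
  /-- the level -/
  m : ℕ
  /-- a finite set -/
  F : Finset Ω1
  /-- the pattern -/
  g : Fin sh.n → ↥(TT m) → ↥(Gr m)

/-- The task uses only coordinates below `al`. -/
def DT.Bel (t : DT) (al : Ω1) : Prop := (∀ i, t.r i < al) ∧ ∀ b ∈ t.F, b < al

/-- The tuple `a` has the pattern of the task. -/
def Pat (k : Ω1 → List ℕ → ℝ) (t : DT) (a : Fin t.sh.n → Ω1) : Prop :=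
  StrictMono a ∧ (∀ b ∈ t.F, ∀ j, b < a j) ∧ OrdS k t.m (↑t.F ∪ Set.range a) ∧
    ∀ j, ∀ s ∈ TT t.m, k (a j) s = ex (t.g j) s

lemma pat_congr {k k' : Ω1 → List ℕ → ℝ} {t : DT} {a : Fin t.sh.n → Ω1} (h : Pat k t a)
    (hF : ∀ b ∈ t.F, k b = k' b) (ha : ∀ j, k (a j) = k' (a j)) : Pat k' t a := by
  obtain ⟨h1, h2, h3, h4⟩ := h
  refine ⟨h1, h2, h3.congr ?_, fun j s hs => ?_⟩
  · rintro b (hb | ⟨j, rfl⟩)
    · exact hF b hb
    · exact ha j
  · rw [← ha j]; exact h4 j s hs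

lemma countable_below (al : Ω1) : {c : Code Ω1 | Below c al}.Countable := by
  have : Countable ↥(Set.Iio al) := (om1_Iio al).to_subtype
  let f : (Σ sh : Shape, (Fin sh.s → ↥(Set.Iio al)) × (Fin sh.n → ↥(Set.Iio al))) → Code Ω1 :=
    fun p => ⟨p.1, fun i => p.2.1 i, fun j => p.2.2 j⟩
  refine (Set.countable_range f).mono ?_
  intro c hB
  exact ⟨⟨c.sh, fun i => ⟨c.r i, hB.1 i⟩, fun j => ⟨c.a j, hB.2 j⟩⟩, rfl⟩

lemma countable_bel (al : Ω1) : {t : DT | t.Bel al}.Countable := by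
  have : Countable ↥(Set.Iio al) := (om1_Iio al).to_subtype
  let f : (Σ sh : Shape, (Fin sh.s → ↥(Set.Iio al)) × (Σ m : ℕ, Finset ↥(Set.Iio al) × (Fin sh.n → ↥(TT m) → ↥(Gr m)))) →
      DT := fun p => ⟨p.1, fun i => p.2.1 i, p.2.2.1, p.2.2.2.1.map (Function.Embedding.subtype _), p.2.2.2.2⟩
  refine (Set.countable_range f).mono ?_
  rintro ⟨sh, r, m, F, g⟩ ⟨h1, h2⟩
  obtain ⟨F', hF'⟩ := lift_finset (fun b hb => h2 b hb)
  refine ⟨⟨sh, fun i => ⟨r i, h1 i⟩, m, F', g⟩, ?_⟩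
  simp only [f, hF']

/-- The conditions forcing the existence of a tuple with the given pattern. -/
def Ed (F : Code Ω1 → Set QJ) (t : DT) : Set QJ := {q | ∃ a : Fin t.sh.n → Ω1, (∀ j, a j < q.h) ∧ (∀ b ∈ t.F, b < q.h) ∧
  Pat q.d.k t a ∧ q ∈ F ⟨t.sh, t.r, a⟩}

lemma ed_mono {F : Code Ω1 → Set QJ} (hF : ∀ c p q, p ∈ F c → q ≤ p → q ∈ F c) {t : DT} {p q : QJ} (h : p ∈ Ed F t)
    (hq : q ≤ p) : q ∈ Ed F t := by
  obtain ⟨a, h1, h2, h3, h4⟩ := h
  refine ⟨a, fun j => (h1 j).trans_le hq.1, fun b hb => (h2 b hb).trans_le hq.1, pat_congr h3 ?_ ?_, hF _ _ _ h4 hq⟩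
  · exact fun b hb => (hq.2 b (h2 b hb)).2.2.symm
  · exact fun j => (hq.2 _ (h1 j)).2.2.symm

/-- The condition `q` guesses the set `F` at `al`. -/
def Gs (F : Code Ω1 → Set QJ) (q : QJ) (al : Ω1) : Prop := al < q.h ∧
  (∀ c, Below c al → q ∈ F c ∨ ∀ r ≤ q, r ∉ F c) ∧ (∀ c, c ∈ q.d.S al ↔ Below c al ∧ q ∈ F c) ∧
  ∀ t : DT, t.Bel al → (∃ a : Fin t.sh.n → Ω1, (∀ j, a j < al) ∧ Pat q.d.k t a ∧ q ∈ F ⟨t.sh, t.r, a⟩) ∨ ∀ r ≤ q, r ∉ Ed F t

lemma gs_mono {F : Code Ω1 → Set QJ} (hF : ∀ c p q, p ∈ F c → q ≤ p → q ∈ F c) {p q : QJ} {al : Ω1} (h : Gs F p al)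
    (hq : q ≤ p) : Gs F q al := by
  obtain ⟨h1, h2, h3, h4⟩ := h
  refine ⟨h1.trans_le hq.1, fun c hc => ?_, fun c => ?_, fun t ht => ?_⟩
  · rcases h2 c hc with h | h
    · exact Or.inl (hF _ _ _ h hq)
    · exact Or.inr (fun r hr => h r (hr.trans hq))
  · rw [(hq.2 al h1).1, h3]
    refine and_congr_right (fun hc => ⟨fun h => hF _ _ _ h hq, fun h => ?_⟩)
    rcases h2 c hc with h' | h'
    · exact h'
    · exact (h' q hq h).elim
  · rcases h4 t ht with ⟨a, ha, hP, hf⟩ | h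
    · refine Or.inl ⟨a, ha, pat_congr hP (fun b hb => ?_) (fun j => ?_), hF _ _ _ hf hq⟩
      · exact (hq.2 b ((ht.2 b hb).trans h1)).2.2.symm
      · exact (hq.2 _ ((ha j).trans h1)).2.2.symm
    · exact Or.inr (fun r hr => h r (hr.trans hq))

/-- Countably many open sets can be decided. -/
lemma decide_ctb {ι : Type} {A : Set ι} (hA : A.Countable) (S : ι → Set QJ) (hS : ∀ i p q, p ∈ S i → q ≤ p → q ∈ S i)
    (p : QJ) : ∃ q ≤ p, ∀ i ∈ A, q ∈ S i ∨ ∀ r ≤ q, r ∉ S i := by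
  rcases A.eq_empty_or_nonempty with rfl | hne
  · exact ⟨p, le_rfl, fun i hi => hi.elim⟩
  obtain ⟨e, rfl⟩ := hA.exists_eq_range hne
  obtain ⟨q, h1, h2⟩ := Sig.dAll_dense qj_closed (fun n => S (e n)) (fun n p q h h' => hS _ _ _ h h') p
  refine ⟨q, h2, ?_⟩
  rintro _ ⟨n, rfl⟩
  exact h1 n

theorem gs_dense {F : Code Ω1 → Set QJ} (hF : ∀ c p q, p ∈ F c → q ≤ p → q ∈ F c) (β : Ω1) (p : QJ) :
    ∃ q ≤ p, ∃ al, β < al ∧ Gs F q al := by
  have step : ∀ p : QJ, ∃ q ≤ p, p.h < q.h ∧ (∀ c, Below c p.h → q ∈ F c ∨ ∀ r ≤ q, r ∉ F c) ∧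
      ∀ t : DT, t.Bel p.h → q ∈ Ed F t ∨ ∀ r ≤ q, r ∉ Ed F t := by
    intro p
    obtain ⟨q1, h1, h2⟩ := decide_ctb (countable_below p.h) F hF p
    obtain ⟨q2, h3, h4⟩ := decide_ctb (countable_bel p.h) (Ed F) (fun t p q h h' => ed_mono hF h h') q1
    obtain ⟨q3, h5, h6⟩ := exists_higher q2 p.h
    refine ⟨q3, (h5.trans h3).trans h1, h6, fun c hc => ?_, fun t ht => ?_⟩
    · rcases h2 c hc with h | h
      · exact Or.inl (hF _ _ _ h (h5.trans h3))
      · exact Or.inr (fun r hr => h r (hr.trans (h5.trans h3)))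
    · rcases h4 t ht with h | h
      · exact Or.inl (ed_mono hF h h5)
      · exact Or.inr (fun r hr => h r (hr.trans h5))
  choose nx hn1 hn2 hn3 hn4 using step
  obtain ⟨p0, hp0, hβ⟩ := exists_higher p β
  let s : ℕ → QJ := fun n => Nat.rec p0 (fun _ q => nx q) n
  have hs : ∀ n, s (n + 1) = nx (s n) := fun n => rfl
  have hsd : ∀ n, s (n + 1) ≤ s n := fun n => hn1 _
  obtain ⟨u, hu1, hu2⟩ := exists_lim hsd
  obtain ⟨q, hq1, hq2, hq3, _⟩ := exists_guess u {c | Below c u.h ∧ u ∈ F c} (fun _ _ => 0)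
  have hsh : ∀ n, (s n).h < u.h := fun n => (hn2 (s n)).trans_le (hu1 (n + 1)).1
  have hmono : ∀ m n, m ≤ n → (s m).h ≤ (s n).h := fun m n hmn => (qj_anti hsd hmn).1
  have hfin : ∀ A : Finset Ω1, (∀ b ∈ A, b < u.h) → ∃ n, ∀ b ∈ A, b < (s n).h := by
    intro A
    induction A using Finset.induction_on with
    | empty => intro _; exact ⟨0, by simp⟩
    | insert a A _ ih =>
      intro hA
      obtain ⟨n, hn⟩ := ih (fun b hb => hA b (Finset.mem_insert_of_mem hb))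
      obtain ⟨m, hm⟩ := hu2 a (hA a (Finset.mem_insert_self _ _))
      refine ⟨max n m, fun b hb => ?_⟩
      rcases Finset.mem_insert.mp hb with h | h
      · rw [h]; exact hm.trans_le (hmono _ _ (le_max_right _ _))
      · exact (hn b h).trans_le (hmono _ _ (le_max_left _ _))
  have hdec : ∀ c, Below c u.h → u ∈ F c ∨ ∀ r ≤ u, r ∉ F c := by
    intro c hc
    classical
    obtain ⟨n, hn⟩ := hfin (Finset.univ.image c.r ∪ Finset.univ.image c.a) (fun b hb => by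
      rcases Finset.mem_union.mp hb with h | h
      · obtain ⟨i, _, rfl⟩ := Finset.mem_image.mp h
        exact hc.1 i
      · obtain ⟨i, _, rfl⟩ := Finset.mem_image.mp h
        exact hc.2 i)
    have hc' : Below c (s n).h := ⟨fun i => hn _ (Finset.mem_union_left _ (Finset.mem_image_of_mem _ (Finset.mem_univ i))),
      fun i => hn _ (Finset.mem_union_right _ (Finset.mem_image_of_mem _ (Finset.mem_univ i)))⟩
    rcases hn3 (s n) c hc' with h | h
    · exact Or.inl (hF _ _ _ h (hu1 (n + 1)))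
    · exact Or.inr (fun r hr => h r (hr.trans (hu1 (n + 1))))
  refine ⟨q, (hq1.trans (hu1 0)).trans hp0, u.h, hβ.trans (hsh 0), hq2, fun c hc => ?_, fun c => ?_, fun t ht => ?_⟩
  · rcases hdec c hc with h | h
    · exact Or.inl (hF _ _ _ h hq1)
    · exact Or.inr (fun r hr => h r (hr.trans hq1))
  · rw [hq3]
    refine and_congr_right (fun hc => ⟨fun h => hF _ _ _ h hq1, fun h => ?_⟩)
    rcases hdec c hc with h' | h'
    · exact h'
    · exact (h' q hq1 h).elim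
  · classical
    obtain ⟨n, hn⟩ := hfin (Finset.univ.image t.r ∪ t.F) (fun b hb => by
      rcases Finset.mem_union.mp hb with h | h
      · obtain ⟨i, _, rfl⟩ := Finset.mem_image.mp h
        exact ht.1 i
      · exact ht.2 b h)
    have ht' : t.Bel (s n).h := ⟨fun i => hn _ (Finset.mem_union_left _ (Finset.mem_image_of_mem _ (Finset.mem_univ i))),
      fun b hb => hn _ (Finset.mem_union_right _ hb)⟩
    rcases hn4 (s n) t ht' with h | h
    · left
      obtain ⟨a, h1, h2, h3, h4⟩ := h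
      have hle : q ≤ s (n + 1) := hq1.trans (hu1 (n + 1))
      refine ⟨a, fun j => (h1 j).trans (hsh (n + 1)), pat_congr h3 (fun b hb => (hle.2 b (h2 b hb)).2.2.symm)
        (fun j => (hle.2 _ (h1 j)).2.2.symm), hF _ _ _ h4 hle⟩
    · exact Or.inr (fun r hr => h r (hr.trans (hq1.trans (hu1 (n + 1)))))

/-- The condition `q` guesses `F` at all members of an increasing sequence. -/
def Gss (F : Code Ω1 → Set QJ) : Set QJ := {q | ∃ al : ℕ → Ω1, StrictMono al ∧ ∀ i, Gs F q (al i)}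

theorem gss_dense {F : Code Ω1 → Set QJ} (hF : ∀ c p q, p ∈ F c → q ≤ p → q ∈ F c) (p : QJ) :
    ∃ q ∈ Gss F, q ≤ p := by
  have step : ∀ x : QJ × Ω1, ∃ y : QJ × Ω1, y.1 ≤ x.1 ∧ x.2 < y.2 ∧ Gs F y.1 y.2 := by
    intro x
    obtain ⟨q, hq, al, h1, h2⟩ := gs_dense hF x.2 x.1
    exact ⟨(q, al), hq, h1, h2⟩
  choose nx hn1 hn2 hn3 using step
  let s : ℕ → QJ × Ω1 := fun n => Nat.rec (p, ⊥) (fun _ q => nx q) n
  have hs : ∀ n, s (n + 1) = nx (s n) := fun n => rfl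
  obtain ⟨u, hu1, _⟩ := exists_lim (p := fun n => (s n).1) (fun n => hn1 _)
  refine ⟨u, ⟨fun n => (s (n + 1)).2, strictMono_nat_of_lt_succ (fun n => hn2 _), fun i => ?_⟩, hu1 0⟩
  exact gs_mono hF (hn3 (s i)) (hu1 (i + 1))

end Pool.Agent.H55.Jay
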