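import Pool.Agent.H55.Jay.Pn

set_option autoImplicit false
set_option linter.all false

/-!
# Generic systems of weights
-/

namespace Pool.Agent.H55.Jay

open Pool.Agent.H12.Jayne Pool.Agent.H55.Lav Pool.Agent.H55.SC Pool.Agent.H55.ZFU Pool.Agent.H55.Sig Pool.Agent.H55.CS

/-- The conditions forcing that the closure of the basic open set with the code `c` is contained in `τ`. -/
def Fc (τ : Nm QJ) (c : Code Ω1) : Set QJ :=
  {q | ∀ y : Pt, ev c y ∈ closure (c.sh.O : Set (ZZ c.sh.s c.sh.n)) → ∀ r ≤ q, r ∈ SK y → fmem (pN y) τ r}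

/-- The conditions forcing that the closure of the basic open set with the code `c` is contained in a member of `τ`. -/
def Fc2 (τ : Nm QJ) (c : Code Ω1) : Set QJ := {q | ∃ i : τ.ι, q ≤ τ.c i ∧ q ∈ Fc (τ.A i) c}

lemma fc_mono {τ : Nm QJ} {c : Code Ω1} {p q : QJ} (h : p ∈ Fc τ c) (hq : q ≤ p) : q ∈ Fc τ c :=
  fun y hy r hr hS => h y hy r (hr.trans hq) hS

lemma fc2_mono {τ : Nm QJ} {c : Code Ω1} {p q : QJ} (h : p ∈ Fc2 τ c) (hq : q ≤ p) : q ∈ Fc2 τ c := by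
  obtain ⟨i, h1, h2⟩ := h
  exact ⟨i, hq.trans h1, fc_mono h2 hq⟩

/-- A point refuting the inclusion. -/
def Rf (τ : Nm QJ) (c : Code Ω1) (q : QJ) (y : Pt) : Prop :=
  ev c y ∈ closure (c.sh.O : Set (ZZ c.sh.s c.sh.n)) ∧ q ∈ SK y ∧ ∀ r ≤ q, ¬ fmem (pN y) τ r

/-- The conditions deciding the inclusion. -/
def Dc (τ : Nm QJ) (c : Code Ω1) : Set QJ := {q | q ∈ Fc τ c ∨ ∃ y, Rf τ c q y}

lemma dc_dense (τ : Nm QJ) (c : Code Ω1) (p : QJ) : ∃ q ∈ Dc τ c, q ≤ p := by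
  by_cases h : p ∈ Fc τ c
  · exact ⟨p, Or.inl h, le_rfl⟩
  · have h' : ∃ y : Pt, ev c y ∈ closure (c.sh.O : Set (ZZ c.sh.s c.sh.n)) ∧ ∃ r ≤ p, r ∈ SK y ∧ ¬ fmem (pN y) τ r := by
      by_contra hcon
      push Not at hcon
      exact h (fun y hy r hr hS => hcon y hy r hr hS)
    obtain ⟨y, h1, r, h2, h3, h4⟩ := h'
    have h5 : ∃ q ≤ r, ∀ s ≤ q, ¬ fmem (pN y) τ s := by
      by_contra hcon
      push Not at hcon
      exact h4 (fmem_dense hcon)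
    obtain ⟨q, h6, h7⟩ := h5
    exact ⟨q, Or.inr ⟨y, h1, sk_mono h3 h6, h7⟩, h6.trans h2⟩

/-- Closure properties of `N` used for generic systems of weights. -/
structure GnOk (N : Set (Un QJ)) : Prop where
  ht : ∀ α : Ω1, InT N α → InT N {q : QJ | α < q.h}
  hts : ∀ q : QJ, InT N q → InT N q.h
  seg : ∀ α : Ω1, InT N α → ∀ c : Code Ω1, Below c α → InT N c
  segt : ∀ α : Ω1, InT N α → ∀ t : DT, t.Bel α → InT N t
  codes : ∀ c : Code Ω1, InT N c → (∀ i, InT N (c.r i)) ∧ ∀ j, InT N (c.a j)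
  fc : ∀ τ : Nm QJ, InN N τ → InT N (Fc τ) ∧ InT N (Fc2 τ)
  dc : ∀ τ : Nm QJ, InN N τ → ∀ c : Code Ω1, InT N c → InT N (Dc τ c)
  dw : ∀ τ : Nm QJ, InN N τ → ∀ c : Code Ω1, InT N c → ∀ q : QJ, InT N q → (∃ y, Rf τ c q y) → ∃ y, Rf τ c q y ∧ InT N y
  f2 : ∀ τ : Nm QJ, InN N τ → ∀ c : Code Ω1, InT N c → ∀ q : QJ, InT N q → (∃ i : τ.ι, q ≤ τ.c i ∧ q ∈ Fc (τ.A i) c) →
    ∃ i : τ.ι, (q ≤ τ.c i ∧ q ∈ Fc (τ.A i) c) ∧ InN N (τ.A i) ∧ InT N (τ.c i)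
  gss : ∀ F : Code Ω1 → Set QJ, InT N F → InT N (Gss F)
  gw : ∀ F : Code Ω1 → Set QJ, InT N F → ∀ q : QJ, InT N q → q ∈ Gss F →
    ∃ al : ℕ → Ω1, StrictMono al ∧ (∀ i, Gs F q (al i)) ∧ (∀ i, InT N (al i)) ∧ ∃ α, InT N α ∧ ∀ i, al i ≤ α
  bot : InT N (⊥ : Ω1)

lemma gnOk_club : ∀ᶠ N in club (Un QJ), GnOk N := by
  have h1 : ∀ᶠ N in club (Un QJ), ∀ α : Ω1, InT N α → InT N {q : QJ | α < q.h} := diagT (fun α => club_inT _)
  have h2 : ∀ᶠ N in club (Un QJ), ∀ q : QJ, InT N q → InT N q.h := diagT (fun α => club_inT _)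
  have h3 : ∀ᶠ N in club (Un QJ), ∀ α : Ω1, InT N α → ∀ c : Code Ω1, Below c α → InT N c := by
    refine diagT (fun α => ?_)
    have : Countable {c : Code Ω1 | Below c α} := (countable_below α).to_subtype
    exact (club_all (fun c : {c : Code Ω1 | Below c α} => club_inT c.1)).mono (fun N hN c hc => hN ⟨c, hc⟩)
  have h4 : ∀ᶠ N in club (Un QJ), ∀ α : Ω1, InT N α → ∀ t : DT, t.Bel α → InT N t := by
    refine diagT (fun α => ?_)
    have : Countable {t : DT | t.Bel α} := (countable_bel α).to_subtype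
    exact (club_all (fun c : {t : DT | t.Bel α} => club_inT c.1)).mono (fun N hN c hc => hN ⟨c, hc⟩)
  have h5 : ∀ᶠ N in club (Un QJ), ∀ c : Code Ω1, InT N c → (∀ i, InT N (c.r i)) ∧ ∀ j, InT N (c.a j) :=
    diagT (fun c => (club_all (fun i => club_inT _)).and (club_all (fun i => club_inT _)))
  have h6 : ∀ᶠ N in club (Un QJ), ∀ τ : Nm QJ, InN N τ → InT N (Fc τ) ∧ InT N (Fc2 τ) :=
    diagN (fun τ => (club_inT _).and (club_inT _))
  have h7 : ∀ᶠ N in club (Un QJ), ∀ τ : Nm QJ, InN N τ → ∀ c : Code Ω1, InT N c → InT N (Dc τ c) :=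
    diagN (fun τ => diagT (fun c => club_inT _))
  have h8 : ∀ᶠ N in club (Un QJ), ∀ τ : Nm QJ, InN N τ → ∀ c : Code Ω1, InT N c → ∀ q : QJ, InT N q →
      (∃ y, Rf τ c q y) → ∃ y, Rf τ c q y ∧ InT N y := by
    refine diagN (fun τ => diagT (fun c => diagT (fun q => ?_)))
    by_cases h : ∃ y, Rf τ c q y
    · obtain ⟨y, hy⟩ := h
      exact (club_inT y).mono (fun N hN _ => ⟨y, hy, hN⟩)
    · exact Filter.Eventually.of_forall (fun N h' => (h h').elim)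
  have h9 : ∀ᶠ N in club (Un QJ), ∀ τ : Nm QJ, InN N τ → ∀ c : Code Ω1, InT N c → ∀ q : QJ, InT N q →
      (∃ i : τ.ι, q ≤ τ.c i ∧ q ∈ Fc (τ.A i) c) →
        ∃ i : τ.ι, (q ≤ τ.c i ∧ q ∈ Fc (τ.A i) c) ∧ InN N (τ.A i) ∧ InT N (τ.c i) := by
    refine diagN (fun τ => diagT (fun c => diagT (fun q => ?_)))
    by_cases h : ∃ i : τ.ι, q ≤ τ.c i ∧ q ∈ Fc (τ.A i) c
    · obtain ⟨i, hi⟩ := h
      filter_upwards [club_inN (τ.A i), club_inT (τ.c i)] with N h1 h2 _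
      exact ⟨i, hi, h1, h2⟩
    · exact Filter.Eventually.of_forall (fun N h' => (h h').elim)
  have h10 : ∀ᶠ N in club (Un QJ), ∀ F : Code Ω1 → Set QJ, InT N F → InT N (Gss F) := diagT (fun F => club_inT _)
  have h11 : ∀ᶠ N in club (Un QJ), ∀ F : Code Ω1 → Set QJ, InT N F → ∀ q : QJ, InT N q → q ∈ Gss F →
      ∃ al : ℕ → Ω1, StrictMono al ∧ (∀ i, Gs F q (al i)) ∧ (∀ i, InT N (al i)) ∧ ∃ α, InT N α ∧ ∀ i, al i ≤ α := by
    refine diagT (fun F => diagT (fun q => ?_))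
    by_cases h : q ∈ Gss F
    · obtain ⟨al, h1, h2⟩ := h
      obtain ⟨α, hα⟩ := om1_bound (Set.countable_range al)
      filter_upwards [club_inT α, club_all (fun i => club_inT (al i))] with N h3 h4 _
      exact ⟨al, h1, h2, h4, α, h3, fun i => (hα _ ⟨i, rfl⟩).le⟩
    · exact Filter.Eventually.of_forall (fun N h' => (h h').elim)
  filter_upwards [h1, h2, h3, h4, h5, h6, h7, h8, h9, h10, h11, club_inT (⊥ : Ω1)] with
    N a1 a2 a3 a4 a5 a6 a7 a8 a9 a10 a11 a12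
  exact ⟨a1, a2, a3, a4, a5, a6, a7, a8, a9, a10, a11, a12⟩

section
variable {N : Set (Un QJ)} {G : Set QJ} (ok : NOk N) (fok : FOk N) (zok : ZOk N) (cok : COk N) (ook : OOk N)
  (re : ReOk N) (pn : PnOk N) (gn : GnOk N) (gen : GenF N G)

/-- The total data `d` extend all conditions of the generic filter. -/
structure Tot (G : Set QJ) (d : Tr) : Prop where
  good : ∀ al, Good d.S d.mu d.k al
  agr : ∀ q ∈ G, ∀ b < q.h, Agr d q.d b

lemma exists_tot (hcount : N.Countable) (gen : GenF N G) : ∃ d, Tot G d := by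
  have h1 : {q : QJ | InT N q}.Countable := hcount.preimage_of_injOn uT_inj.injOn
  have h2 : G.Countable := h1.mono gen.sub
  have : Countable ↥G := h2.to_subtype
  obtain ⟨q, hq, _⟩ := exists_union (fun q : ↥G => q.1) (fun p q => by
    obtain ⟨r, _, h3, h4⟩ := gen.dir p.1 p.2 q.1 q.2
    exact ⟨r, h3, h4⟩)
  obtain ⟨k', h3, h4⟩ := exists_total q
  refine ⟨⟨q.d.S, q.d.mu, k'⟩, h4, fun p hp b hb => ?_⟩
  have h5 := (hq ⟨p, hp⟩).2 b hb
  exact ⟨h5.1, h5.2.1, (h3 b (hb.trans_le (hq ⟨p, hp⟩).1)).trans h5.2.2⟩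

include gn gen in
lemma exists_height {α : Ω1} (hα : InT N α) : ∃ q ∈ G, α < q.h := by
  obtain ⟨q, hq, h⟩ := gen.gen _ (gn.ht α hα) (height_dense α)
  exact ⟨q, hq, h⟩

lemma Tot.wts {d : Tr} (t : Tot G d) : Wts d.k := Good.wts t.good

lemma Tot.ext {d : Tr} (t : Tot G d) {q : QJ} (hq : q ∈ G) : Ext d.k q := fun b hb => (t.agr q hq b hb).2.2

lemma Tot.sk {d : Tr} (t : Tot G d) {q : QJ} (hq : q ∈ G) {y : Pt} :
    q ∈ SK y ↔ y ∈ KK d.k ∧ ∀ b, q.h ≤ b → ∀ t, y b t = 0 := sk_iff t.wts (t.ext hq)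

lemma Tot.mem {d : Tr} (t : Tot G d) {y : Pt} (h : Ht G (SK y)) : y ∈ KK d.k := by
  obtain ⟨q, hq, h⟩ := h
  exact ((t.sk hq).mp h).1

include gn gen in
lemma Tot.ht {d : Tr} (t : Tot G d) {y : Pt} : Ht G (SK y) ↔ y ∈ KK d.k ∧ ∃ α, InT N α ∧ ∀ b, α ≤ b → ∀ t, y b t = 0 := by
  constructor
  · rintro ⟨q, hq, h⟩
    rw [t.sk hq] at h
    exact ⟨h.1, q.h, gn.hts q (gen.sub q hq), h.2⟩
  · rintro ⟨h1, α, hα, h2⟩
    obtain ⟨q, hq, h3⟩ := exists_height gn gen hα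
    exact ⟨q, hq, (t.sk hq).mpr ⟨h1, fun b hb => h2 b (h3.le.trans hb)⟩⟩

include ok gn gen in
/-- The forcing theorem for inclusions. -/
lemma fc_iff {τ : Nm QJ} (hτ : InN N τ) {c : Code Ω1} (hc : InT N c) : Ht G (Fc τ c) ↔
    ∀ y (h : InT N y), Ht G (SK y) → ev c y ∈ closure (c.sh.O : Set (ZZ c.sh.s c.sh.n)) → EE (pv pn G h) (vl G hτ) := by
  constructor
  · rintro ⟨q, hq, hF⟩ y h ⟨r, hr, hS⟩ hev
    obtain ⟨s, hs, h1, h2⟩ := gen.dir q hq r hr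
    exact (val_mem ok gen (pn.pfn.fn y h) hτ).mpr ⟨s, hs, hF y hev s h1 (sk_mono hS h2)⟩
  · intro H
    obtain ⟨q, hq, h⟩ := gen.gen _ (gn.dc τ hτ c hc) (dc_dense τ c)
    rcases h with h | h
    · exact ⟨q, hq, h⟩
    · exfalso
      obtain ⟨y, ⟨h1, h2, h3⟩, h4⟩ := gn.dw τ hτ c hc q (gen.sub q hq) h
      obtain ⟨r, hr, h5⟩ := (val_mem ok gen (pn.pfn.fn y h4) hτ).mp (H y h4 ⟨q, hq, h2⟩ h1)
      obtain ⟨s, _, h6, h7⟩ := gen.dir q hq r hr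
      exact h3 s h6 (fmem_mono h5 h7)

include ok gn gen in
lemma fc2_iff {τ : Nm QJ} (hτ : InN N τ) {c : Code Ω1} (hc : InT N c) : Ht G (Fc2 τ c) ↔
    ∃ O : MM N G, EE O (vl G hτ) ∧ ∀ y (h : InT N y), Ht G (SK y) →
      ev c y ∈ closure (c.sh.O : Set (ZZ c.sh.s c.sh.n)) → EE (pv pn G h) O := by
  constructor
  · rintro ⟨q, hq, hF⟩
    obtain ⟨i, ⟨h1, h2⟩, h3, h4⟩ := gn.f2 τ hτ c hc q (gen.sub q hq) hF
    exact ⟨vl G h3, mem_val.mpr ⟨i, h3, gen.up q hq _ h1 h4, rfl⟩, (fc_iff ok pn gn gen h3 hc).mp ⟨q, hq, h2⟩⟩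
  · rintro ⟨O, hO, H⟩
    obtain ⟨i, h1, h2, h3⟩ := mem_val.mp hO
    have e : O = vl G h1 := Subtype.ext h3.symm
    subst e
    obtain ⟨q, hq, h4⟩ := (fc_iff ok pn gn gen h1 hc).mpr H
    obtain ⟨r, hr, h5, h6⟩ := gen.dir q hq _ h2
    exact ⟨r, hr, i, h6, fc_mono h4 h5⟩

include gn gen in
/-- Covering by the codes below a countable ordinal. -/
theorem gcover {d : Tr} (t : Tot G d) {F : Code Ω1 → Set QJ} (hF : ∀ c p q, p ∈ F c → q ≤ p → q ∈ F c) (hFN : InT N F) :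
    ∃ α, InT N α ∧ ∀ (x : Pt), x ∈ KK d.k → ∀ (I : Finset Ω1) (u : Ω1 → Set (List ℕ → ℝ)),
      (∀ b ∈ I, IsOpen (u b) ∧ x b ∈ u b) →
      (∀ c : Code Ω1, Uses c I → (∀ z ∈ (c.sh.O : Set (ZZ c.sh.s c.sh.n)), (∀ i, z.1 i ∈ u (c.r i)) ∧ ∀ j, z.2 j ∈ u (c.a j)) →
        InT N c ∧ Ht G (F c)) →
      ∃ c, Ht G (F c) ∧ Below c α ∧ ev c x ∈ (c.sh.O : Set (ZZ c.sh.s c.sh.n)) := by
  obtain ⟨q, hq, hG⟩ := gen.gen _ (gn.gss F hFN) (gss_dense hF)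
  obtain ⟨al, h1, h2, h3, α, hα, h4⟩ := gn.gw F hFN q (gen.sub q hq) hG
  -- the set of codes
  have hdec : ∀ i c, Below c (al i) → (Ht G (F c) ↔ q ∈ F c) := by
    intro i c hc
    constructor
    · rintro ⟨r, hr, h5⟩
      rcases (h2 i).2.1 c hc with h | h
      · exact h
      · obtain ⟨s, _, h6, h7⟩ := gen.dir q hq r hr
        exact (h s h6 (hF _ _ _ h5 h7)).elim
    · intro h; exact ⟨q, hq, h⟩
  have hS : ∀ i, ∀ c : Code Ω1, c ∈ d.S (al i) ↔ c ∈ {c | InT N c ∧ Ht G (F c)} ∧ Below c (al i) := by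
    intro i c
    rw [(t.agr q hq (al i) (h2 i).1).1, (h2 i).2.2.1 c]
    constructor
    · rintro ⟨h5, h6⟩
      exact ⟨⟨gn.seg _ (h3 i) c h5, ⟨q, hq, h6⟩⟩, h5⟩
    · rintro ⟨⟨_, h6⟩, h7⟩
      exact ⟨h7, (hdec i c h7).mp h6⟩
  have hR : ∀ i, Refl d.k {c | InT N c ∧ Ht G (F c)} (al i) := by
    intro i sh r a hcB hr ha m Fs hFs hFa ho
    have hex : ∀ j, ∃ f : ↥(TT m) → ↥(Gr m), ∀ t ∈ TT m, ex f t = d.k (a j) t := fun j =>
      exists_ex _ fun s hs => Gr_mono (mem_TT.1 hs).2 (t.wts.gr (a j) s (mem_TT.1 hs).1)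
    choose g hg using hex
    let T : DT := ⟨sh, r, m, Fs, g⟩
    rcases (h2 i).2.2.2 T ⟨hr, hFs⟩ with ⟨a', ha', hP, hf⟩ | h
    · obtain ⟨e1, e2, e3, e4⟩ := hP
      have hk1 : ∀ b < al i, q.d.k b = d.k b := fun b hb => (t.agr q hq b (hb.trans (h2 i).1)).2.2.symm
      refine ⟨a', e1, ha', e2, ⟨gn.seg _ (h3 i) _ ⟨hr, ha'⟩, q, hq, hf⟩, e3.congr ?_, fun j s hs hl => ?_⟩
      · rintro b (hb | ⟨j, rfl⟩)
        · exact hk1 b (hFs b hb)
        · exact hk1 _ (ha' j)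
      · have hs' : s ∈ TT m := mem_TT.2 ⟨hs, hl⟩
        rw [← hk1 _ (ha' j), e4 j s hs']
        exact hg j s hs'
    · exfalso
      obtain ⟨hcN, r0, hr0, hf⟩ := hcB
      -- a condition whose height is above all coordinates
      have hcoord := (gn.codes _ hcN).2
      have hhigh : ∀ A : Finset Ω1, (∀ b ∈ A, InT N b) → ∃ q' ∈ G, ∀ b ∈ A, b < q'.h := by
        classical
        intro A
        induction A using Finset.induction_on with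
        | empty => intro _; exact ⟨q, hq, by simp⟩
        | insert b A _ ih =>
          intro hA
          obtain ⟨p1, hp1, h6⟩ := ih (fun b hb => hA b (Finset.mem_insert_of_mem hb))
          obtain ⟨p2, hp2, h7⟩ := exists_height gn gen (hA b (Finset.mem_insert_self _ _))
          obtain ⟨p3, hp3, h8, h9⟩ := gen.dir p1 hp1 p2 hp2
          refine ⟨p3, hp3, fun c hc => ?_⟩
          rcases Finset.mem_insert.mp hc with h | h
          · rw [h]; exact h7.trans_le h9.1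
          · exact (h6 c h).trans_le h8.1
      classical
      obtain ⟨q', hq', h6⟩ := hhigh (Finset.univ.image a) (fun b hb => by
        obtain ⟨j, _, rfl⟩ := Finset.mem_image.mp hb
        exact hcoord j)
      obtain ⟨s1, hs1, h7, h8⟩ := gen.dir q hq q' hq'
      obtain ⟨s2, hs2, h9, h10⟩ := gen.dir s1 hs1 r0 hr0
      have hs2q : s2 ≤ q := h9.trans h7
      refine h s2 hs2q ⟨a, fun j => ?_, fun b hb => ?_, ⟨ha, hFa, ?_, fun j s hs => ?_⟩, hF _ _ _ hf h10⟩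
      · exact (h6 _ (Finset.mem_image_of_mem _ (Finset.mem_univ j))).trans_le (h8.1.trans h9.1)
      · exact ((hFs b hb).trans (h2 i).1).trans_le hs2q.1
      · refine ho.congr ?_
        rintro b (hb | ⟨j, rfl⟩)
        · exact (t.agr s2 hs2 b (((hFs b hb).trans (h2 i).1).trans_le hs2q.1)).2.2
        · exact (t.agr s2 hs2 _ ((h6 _ (Finset.mem_image_of_mem _ (Finset.mem_univ j))).trans_le (h8.1.trans h9.1))).2.2
      · rw [← (t.agr s2 hs2 _ ((h6 _ (Finset.mem_image_of_mem _ (Finset.mem_univ j))).trans_le (h8.1.trans h9.1))).2.2]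
        exact (hg j s hs).symm
  refine ⟨α, hα, fun x hx I u hu hB => ?_⟩
  obtain ⟨c, ⟨_, h5⟩, ⟨i, h6⟩, h7⟩ := cover' t.good h1 hS hR hx hu (fun c hc hz => hB c hc hz)
  exact ⟨c, h5, ⟨fun j => (h6.1 j).trans_le (h4 i), fun j => (h6.2 j).trans_le (h4 i)⟩, h7⟩

end

end Pool.Agent.H55.Jay
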