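import Pool.Agent.H55.CSDefs

set_option autoImplicit false

/-!
# Compact convex subsets of the space of all functions from a set to the real numbers, inside a model

All notions are relativized to a structure `(M, E)`: all quantifiers range over `M`, and `E` is the membership
relation of the model. `w` is the set of natural numbers of the model, `R` the field of real numbers of the model, and
`I` is a set of the model. The ambient Hausdorff locally convex space is the space `R ^ I` of all functions from `I` to
`R` with the topology of pointwise convergence.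
-/

namespace Pool.Agent.H55.JY

open Pool.Agent.H55.SC Pool.Agent.H55.CS

universe u

variable {M : Type u} (E : M → M → Prop) (w R I : M)

/-- In the model, `F` is finite: it is covered by the image of a natural number under a partial function. -/
def IsFinite (F : M) : Prop := ∃ k f, E k w ∧ (∀ x y z, E x k → Rel E f x y → Rel E f x z → y = z) ∧
  ∀ y, E y F → ∃ x, E x k ∧ Rel E f x y

/-- In the model, `u` is a sequence: a function with domain `w`. -/
def IsSeq (u : M) : Prop := ∀ n, E n w → ∃! x, Rel E u n x

variable [Field (El E R)] [LinearOrder (El E R)]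

/-- The functions `x` and `y` differ by less than `ε` on the set `F`. -/
def Near (F : M) (ε : El E R) (x y : M) : Prop :=
  ∀ i, E i F → ∀ a b : El E R, Rel E x i a.1 → Rel E y i b.1 → a < b + ε ∧ b < a + ε

/-- In the model, `O` is a relatively open subset of the subset `K` of `R ^ I`. -/
def IsOpenIn (K O : M) : Prop := Sub E O K ∧ ∀ x, E x O → ∃ (F : M) (ε : El E R), Sub E F I ∧ IsFinite E w F ∧
  0 < ε ∧ ∀ y, E y K → Near E R F ε x y → E y O

/-- In the model, `C` is a relatively closed subset of `K`. -/
def IsClosedIn (K C : M) : Prop := Sub E C K ∧ ∀ O, (∀ x, E x O ↔ E x K ∧ ¬ E x C) → IsOpenIn E w R I K O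

/-- In the model, `K` is compact: every cover by open sets has a finite subcover. -/
def IsCompact (K : M) : Prop := ∀ U, (∀ O, E O U → IsOpenIn E w R I K O) → (∀ x, E x K → ∃ O, E O U ∧ E x O) →
  ∃ V, Sub E V U ∧ IsFinite E w V ∧ ∀ x, E x K → ∃ O, E O V ∧ E x O

/-- In the model, `K` is convex. -/
def IsConvex (K : M) : Prop := ∀ (x y z : M) (c : El E R), E x K → E y K → 0 ≤ c → c ≤ 1 → IsFun E z I R →
  (∀ i, E i I → ∀ a b d : El E R, Rel E x i a.1 → Rel E y i b.1 → Rel E z i d.1 → d = c * a + (1 - c) * b) → E z K

/-- In the model, `R` is the field of real numbers and `K` is a nonempty compact convex subset of `R ^ I`. -/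
structure IsConvexCompactum (K : M) : Prop where
  reals : IsReals E R
  nonempty : ∃ x, E x K
  points : ∀ x, E x K → IsFun E x I R
  convex : IsConvex E R I K
  compact : IsCompact E w R I K

/-- In the model, `C` is the intersection of a sequence of open subsets of `K`. -/
def IsGdelta (K C : M) : Prop := ∃ u, IsSeq E w u ∧ (∀ n O, E n w → Rel E u n O → IsOpenIn E w R I K O) ∧
  ∀ x, E x C ↔ E x K ∧ ∀ n O, E n w → Rel E u n O → E x O

/-- In the model, `K` is perfectly normal: disjoint closed sets are contained in disjoint open sets, and every closed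
set is the intersection of a sequence of open sets. -/
def IsPerfectlyNormal (K : M) : Prop :=
  (∀ A B, IsClosedIn E w R I K A → IsClosedIn E w R I K B → (∀ x, E x A → ¬ E x B) →
    ∃ U V, IsOpenIn E w R I K U ∧ IsOpenIn E w R I K V ∧ Sub E A U ∧ Sub E B V ∧ ∀ x, E x U → ¬ E x V) ∧
  ∀ C, IsClosedIn E w R I K C → IsGdelta E w R I K C

/-- In the model, `K` is separable: it is empty, or there is a sequence of points of `K` which meets every nonempty
open subset of `K`. -/
def IsSeparable (K : M) : Prop := (∀ x, ¬ E x K) ∨ ∃ u, IsSeq E w u ∧ (∀ n x, E n w → Rel E u n x → E x K) ∧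
  ∀ O, IsOpenIn E w R I K O → (∃ x, E x O) → ∃ n x, E n w ∧ Rel E u n x ∧ E x O

end Pool.Agent.H55.JY
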