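import Pool.Agent.H55.Jay.Pf

set_option autoImplicit false
set_option linter.all false

/-!
# The compact set of the model is convex and not separable
-/

namespace Pool.Agent.H55.Jay

open Pool.Agent.H12.Jayne Pool.Agent.H55.Lav Pool.Agent.H55.SC Pool.Agent.H55.ZFU Pool.Agent.H55.Sig Pool.Agent.H55.CS
open Pool.Agent.H55.JY

/-- The conditions deciding the value of `τ` at `n`. -/
def Sq (τ : Nm QJ) (n : ℕ) : Set QJ := {q | ∃ y : Pt, fmem (opN (ck QJ n) (pN y)) τ q}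

/-- The convex combination of two points. -/
def cvx (c : ℝ) (y y' : Pt) : Pt := fun b t => c * y b t + (1 - c) * y' b t

/-- Closure properties of `N` used for sequences of points. -/
structure NsOk (N : Set (Un QJ)) : Prop where
  sN : ∀ τ : Nm QJ, InN N τ → InT N (Sq τ)
  sq : ∀ τ : Nm QJ, InN N τ → ∀ q : QJ, InT N q → (∃ y : ℕ → Pt, ∀ n, fmem (opN (ck QJ n) (pN (y n))) τ q) →
    ∃ y : ℕ → Pt, (∀ n, fmem (opN (ck QJ n) (pN (y n))) τ q) ∧ InT N y ∧ ∀ n, InT N (y n)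
  mg : ∀ y : ℕ → Pt, InT N y → InT N (Mg (fun n => y n ⊥))
  mw : ∀ y : ℕ → Pt, InT N y → ∀ q : QJ, InT N q → q ∈ Mg (fun n => y n ⊥) →
    ∃ al, (al ≠ ⊥ ∧ al < q.h ∧ ∀ i, q.d.mu al i = y i ⊥) ∧ InT N al
  op : ∀ al : Ω1, InT N al → InT N {y : Pt | 0 < y al []}
  ps : ∀ al : Ω1, InT N al → ∀ q : QJ, InT N q → (∃ y, q ∈ SK y ∧ 0 < y al []) → ∃ y, (q ∈ SK y ∧ 0 < y al []) ∧ InT N y
  cx : ∀ y : Pt, InT N y → ∀ y' : Pt, InT N y' → ∀ c : ℝ, InT N c → InT N (cvx c y y')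

lemma nsOk_club : ∀ᶠ N in club (Un QJ), NsOk N := by
  have h1 : ∀ᶠ N in club (Un QJ), ∀ τ : Nm QJ, InN N τ → InT N (Sq τ) := diagN (fun τ => club_inT _)
  have h2 : ∀ᶠ N in club (Un QJ), ∀ τ : Nm QJ, InN N τ → ∀ q : QJ, InT N q →
      (∃ y : ℕ → Pt, ∀ n, fmem (opN (ck QJ n) (pN (y n))) τ q) →
      ∃ y : ℕ → Pt, (∀ n, fmem (opN (ck QJ n) (pN (y n))) τ q) ∧ InT N y ∧ ∀ n, InT N (y n) := by
    refine diagN (fun τ => diagT (fun q => ?_))
    by_cases h : ∃ y : ℕ → Pt, ∀ n, fmem (opN (ck QJ n) (pN (y n))) τ q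
    · obtain ⟨y, hy⟩ := h
      filter_upwards [club_inT y, club_all (fun n => club_inT (y n))] with N h1 h2 _
      exact ⟨y, hy, h1, h2⟩
    · exact Filter.Eventually.of_forall (fun N h' => (h h').elim)
  have h3 : ∀ᶠ N in club (Un QJ), ∀ y : ℕ → Pt, InT N y → InT N (Mg (fun n => y n ⊥)) := diagT (fun y => club_inT _)
  have h4 : ∀ᶠ N in club (Un QJ), ∀ y : ℕ → Pt, InT N y → ∀ q : QJ, InT N q → q ∈ Mg (fun n => y n ⊥) →
      ∃ al, (al ≠ ⊥ ∧ al < q.h ∧ ∀ i, q.d.mu al i = y i ⊥) ∧ InT N al := by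
    refine diagT (fun y => diagT (fun q => ?_))
    by_cases h : q ∈ Mg (fun n => y n ⊥)
    · obtain ⟨al, h1⟩ := h
      exact (club_inT al).mono (fun N hN _ => ⟨al, h1, hN⟩)
    · exact Filter.Eventually.of_forall (fun N h' => (h h').elim)
  have h5 : ∀ᶠ N in club (Un QJ), ∀ al : Ω1, InT N al → InT N {y : Pt | 0 < y al []} := diagT (fun y => club_inT _)
  have h6 : ∀ᶠ N in club (Un QJ), ∀ al : Ω1, InT N al → ∀ q : QJ, InT N q → (∃ y, q ∈ SK y ∧ 0 < y al []) →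
      ∃ y, (q ∈ SK y ∧ 0 < y al []) ∧ InT N y := by
    refine diagT (fun al => diagT (fun q => ?_))
    by_cases h : ∃ y, q ∈ SK y ∧ 0 < y al []
    · obtain ⟨y, h1⟩ := h
      exact (club_inT y).mono (fun N hN _ => ⟨y, h1, hN⟩)
    · exact Filter.Eventually.of_forall (fun N h' => (h h').elim)
  have h7 : ∀ᶠ N in club (Un QJ), ∀ y : Pt, InT N y → ∀ y' : Pt, InT N y' → ∀ c : ℝ, InT N c → InT N (cvx c y y') :=
    diagT (fun y => diagT (fun y' => diagT (fun c => club_inT _)))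
  filter_upwards [h1, h2, h3, h4, h5, h6, h7] with N a1 a2 a3 a4 a5 a6 a7
  exact ⟨a1, a2, a3, a4, a5, a6, a7⟩

section
variable {N : Set (Un QJ)} {G : Set QJ} (ok : NOk N) (fok : FOk N) (zok : ZOk N) (sok : SOk N) (cok : COk N) (ook : OOk N)
  (re : ReOk N) (pn : PnOk N) (gn : GnOk N) (cv : CvOk N) (pf : PfOk N) (ns : NsOk N) (gen : GenF N G)

include gn ns gen in
/-- Every coordinate is positive at some point of the model. -/
lemma exists_posM {d : Tr} (t : Tot G d) {al : Ω1} (hal : InT N al) : ∃ y, InT N y ∧ Ht G (SK y) ∧ 0 < y al [] := by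
  obtain ⟨z, hz, hpos⟩ := exists_pos t.good al
  obtain ⟨p, hp, hap⟩ := exists_height gn gen hal
  obtain ⟨y, ⟨h1, h2⟩, h3⟩ := ns.ps al hal p (gen.sub p hp) ⟨rst p.h z, (t.sk hp).mpr
    ⟨rst_mem t.wts (bot_le.trans_lt hap).ne' hz, fun b hb t => rst_ge hb t⟩, by rw [rst_lt hap]; exact hpos⟩
  exact ⟨y, h3, ⟨p, hp, h1⟩, h2⟩

include fok sok ook gn pf ns in
theorem not_separable {d : Tr} (t : Tot G d) : letI := rfield zok (top_mem ok gen) cok re
    letI := rorder zok (top_mem ok gen) cok re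
    ¬ IsSeparable (EE (N := N) (G := G)) (ww G zok) (RR G re) (IM pn G) (KM pn G) := by
  have htop := top_mem ok gen
  letI := rfield zok (top_mem ok gen) cok re
  letI := rorder zok (top_mem ok gen) cok re
  rintro (hemp | ⟨u, hu1, hu2, hu3⟩)
  · obtain ⟨y, hy, hS, _⟩ := exists_posM gn ns gen t gn.bot
    exact hemp _ ((pv_mem_KM ok fok zok cok ook re pn gen hy).mpr hS)
  obtain ⟨τ, hτ, e⟩ := u.2
  have e' : u = vl G hτ := Subtype.ext e.symm
  subst e'
  have hrel : ∀ n y (hy : InT N y), Rel (EE (N := N) (G := G)) (vl G hτ) (nv G zok n) (pv pn G hy) ↔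
      ∃ q ∈ G, fmem (opN (ck QJ n) (pN y)) τ q := by
    intro n y hy
    rw [show (nv G zok n : MM N G) = vl G (zok.nat n) from rfl, show pv pn G hy = vl G (pn.pfn.fn y hy) from rfl,
      rel_iff_op ok fok zok gen (zok.nat n) (pn.pfn.fn y hy)]
    exact val_mem ok gen (inN_op zok (zok.nat n) (pn.pfn.fn y hy)) hτ
  have hSm : ∀ (n : ℕ) (p q : QJ), p ∈ Sq τ n → q ≤ p → q ∈ Sq τ n := by
    rintro n p q ⟨y, hy⟩ hq
    exact ⟨y, fmem_mono hy hq⟩
  obtain ⟨q, hq, hdec⟩ := decide_open qj_closed sok gen (ns.sN τ hτ) hSm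
  have hall : ∀ n : ℕ, ∃ y : Pt, fmem (opN (ck QJ n) (pN y)) τ q := by
    intro n
    have hn : EE (nv G zok n) (ww G zok) := (mem_ww htop).mpr ⟨n, rfl⟩
    obtain ⟨x, hx, _⟩ := hu1 _ hn
    obtain ⟨y, hy, _, rfl⟩ := (mem_KM pn gen).mp (hu2 _ x hn hx)
    obtain ⟨r, hr, h1⟩ := (hrel n y hy).mp hx
    exact (hdec n).1.mp ⟨r, hr, y, h1⟩
  choose y0 hy0 using hall
  obtain ⟨y, hy1, hyN, hyn⟩ := ns.sq τ hτ q (gen.sub q hq) ⟨y0, hy0⟩
  have hry : ∀ n, Rel (EE (N := N) (G := G)) (vl G hτ) (nv G zok n) (pv pn G (hyn n)) := fun n =>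
    (hrel n (y n) (hyn n)).mpr ⟨q, hq, hy1 n⟩
  have hSy : ∀ n, Ht G (SK (y n)) := fun n =>
    (pv_mem_KM ok fok zok cok ook re pn gen (hyn n)).mp (hu2 _ _ ((mem_ww htop).mpr ⟨n, rfl⟩) (hry n))
  obtain ⟨p, hp, hM⟩ := gen.gen _ (ns.mg y hyN) (mg_dense _)
  obtain ⟨al, ⟨h1, h2, h3⟩, hal⟩ := ns.mw y hyN p (gen.sub p hp) hM
  have hv : ∀ i, y i al [] = 0 := vanish t.good (fun i => t.mem (hSy i)) h1 (fun i => by
    rw [(t.agr p hp al h2).2.1]; exact h3 i)
  have hZ := ns.op al hal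
  have hopen : IsOpen {y : Pt | 0 < y al []} := isOpen_lt continuous_const (by fun_prop)
  obtain ⟨z, hz, hzS, hzp⟩ := exists_posM gn ns gen t hal
  obtain ⟨k, x, hk, hkx, hxO⟩ := hu3 (kv pn G hZ)
    ((opM_iff ok fok zok cok ook re pn gen).mpr (sem_kv ok fok zok cok ook re pn pf gen hZ hopen))
    ⟨pv pn G hz, (pv_mem_kv ok fok zok cok ook re pn gen hZ hz).mpr ⟨hzS, hzp⟩⟩
  obtain ⟨n, rfl⟩ := (mem_ww htop).mp hk
  obtain ⟨x', hx', hux⟩ := hu1 _ hk
  have h4 : x = pv pn G (hyn n) := (hux x hkx).trans (hux _ (hry n)).symm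
  rw [h4] at hxO
  have h5 := ((pv_mem_kv ok fok zok cok ook re pn gen hZ (hyn n)).mp hxO).2
  exact absurd (hv n) (ne_of_gt h5)

include fok ook gn ns in
theorem convex {d : Tr} (t : Tot G d) : letI := rfield zok (top_mem ok gen) cok re
    letI := rorder zok (top_mem ok gen) cok re
    IsConvex (EE (N := N) (G := G)) (RR G re) (IM pn G) (KM pn G) := by
  have htop := top_mem ok gen
  letI := rfield zok (top_mem ok gen) cok re
  letI := rorder zok (top_mem ok gen) cok re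
  intro x y z c hx hy hc0 hc1 hz hcomb
  obtain ⟨y1, hy1, hS1, rfl⟩ := (mem_KM pn gen).mp hx
  obtain ⟨y2, hy2, hS2, rfl⟩ := (mem_KM pn gen).mp hy
  have h0 : 0 ≤ (rr htop re c : ℝ) := by
    have h := (rr_le zok htop cok re).mp hc0
    rw [rr_zero zok htop cok re] at h
    exact h
  have h1 : (rr htop re c : ℝ) ≤ 1 := by
    have h := (rr_le zok htop cok re).mp hc1
    rw [rr_one zok htop cok re] at h
    exact h
  have hy3 : InT N (cvx (rr htop re c : ℝ) y1 y2) := ns.cx y1 hy1 y2 hy2 _ (rr htop re c).2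
  have hS3 : Ht G (SK (cvx (rr htop re c : ℝ) y1 y2)) := by
    obtain ⟨h2, α, hα, h3⟩ := (t.ht gn gen).mp hS1
    obtain ⟨h4, β, hβ, h5⟩ := (t.ht gn gen).mp hS2
    refine (t.ht gn gen).mpr ⟨?_, ?_⟩
    · have h6 := convex_KK d.k h2 h4 h0 (sub_nonneg.mpr h1) (by ring)
      exact h6
    · rcases le_total α β with h | h
      · exact ⟨β, hβ, fun b hb t => by show _ * y1 b t + _ * y2 b t = 0; rw [h3 b (h.trans hb) t, h5 b hb t]; ring⟩
      · exact ⟨α, hα, fun b hb t => by show _ * y1 b t + _ * y2 b t = 0; rw [h3 b hb t, h5 b (h.trans hb) t]; ring⟩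
  have hzeq : z = pv pn G hy3 := by
    refine eq_pv ok fok zok ook re pn gen hy3 hz (fun i hi => ?_)
    have hiI : EE (iv pn G hi) (IM pn G) := (mem_IM pn htop).mpr ⟨i, hi, rfl⟩
    obtain ⟨r, hr, _⟩ := hz.2 _ hiI
    have hrR : EE r (RR G re) := by
      obtain ⟨p, hp, hpp⟩ := hr
      obtain ⟨x', r', _, hr', hpr'⟩ := hz.1 p hp
      obtain ⟨_, e2⟩ := pair_uniq ok fok zok gen hpp hpr'
      rw [e2]; exact hr'
    let a : El (EE (N := N) (G := G)) (RR G re) := ⟨rv G re (pn.ev y1 hy1 i hi), (mem_RR htop re).mpr ⟨_, _, rfl⟩⟩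
    let b : El (EE (N := N) (G := G)) (RR G re) := ⟨rv G re (pn.ev y2 hy2 i hi), (mem_RR htop re).mpr ⟨_, _, rfl⟩⟩
    let e : El (EE (N := N) (G := G)) (RR G re) := ⟨r, hrR⟩
    have ea : (rr htop re a : ℝ) = pe y1 i := rr_eq (hy := pn.ev y1 hy1 i hi) zok htop cok re a rfl
    have eb : (rr htop re b : ℝ) = pe y2 i := rr_eq (hy := pn.ev y2 hy2 i hi) zok htop cok re b rfl
    have hc := hcomb _ hiI a b e ((rel_pv' ok fok zok ook re pn gen hy1 hi).mpr rfl)
      ((rel_pv' ok fok zok ook re pn gen hy2 hi).mpr rfl) hr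
    have h7 : (rr htop re e : ℝ) = pe (cvx (rr htop re c : ℝ) y1 y2) i := by
      rw [hc, rr_add zok htop cok re, rr_mul zok htop cok re, rr_mul zok htop cok re, rr_sub zok htop cok re,
        rr_one zok htop cok re]
      show (rr htop re c : ℝ) * (rr htop re a : ℝ) + (1 - (rr htop re c : ℝ)) * (rr htop re b : ℝ) = _
      rw [ea, eb]
      rfl
    have h8 := rr_spec htop re e
    have h9 : r = rv G re (pn.ev _ hy3 i hi) := by
      rw [show r = e.1 from rfl, h8]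
      apply Subtype.ext
      show val N G (cR QJ (rr htop re e : ℝ)) = val N G (cR QJ (pe (cvx (rr htop re c : ℝ) y1 y2) i))
      rw [h7]
    rw [← h9]; exact hr
  rw [hzeq]
  exact (pv_mem_KM ok fok zok cok ook re pn gen hy3).mpr hS3

end

/-- The main result. -/
theorem main_result : ∃ (M : Type 1) (E : M → M → Prop), Countable M ∧ WellFounded E ∧ CS.ZFC E ∧
    ∃ w, IsOmega E w ∧ ∃ (R I K : M) (_ : Field (El E R)) (_ : LinearOrder (El E R)),
      IsConvexCompactum E w R I K ∧ IsPerfectlyNormal E w R I K ∧ ¬ IsSeparable E w R I K := by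
  obtain ⟨N, hcount, all, sok, cok, ook, re, pn, gn, cv, pf, ns, G, gen⟩ := ((club_countable (Ω := Un QJ)).and
    ((allOk_club (Q := QJ)).and (sok_club.and (cok_club.and (ook_club.and (reOk_club.and (pnOk_club.and
      (gnOk_club.and (cvOk_club.and (pfOk_club.and (nsOk_club.and exists_genF))))))))))).exists
  have htop := top_mem all.ok gen
  obtain ⟨d, t⟩ := exists_tot hcount gen
  have hch := choice_ax all.ok all.fok all.zok all.aok gen
  refine ⟨MM N G, EE, ?_, InvImage.wf Subtype.val ZFSet.mem_wf, hch, ww G all.zok, isOmega_ww htop, RR G re, IM pn G, KM pn G,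
    rfield all.zok (top_mem all.ok gen) cok re, rorder all.zok (top_mem all.ok gen) cok re, ?_, ?_, ?_⟩
  · have h1 : {τ : Nm QJ | InN N τ}.Countable := hcount.preimage_of_injOn uN_inj.injOn
    have h2 : Countable {τ : Nm QJ | InN N τ} := h1.to_subtype
    refine Function.Surjective.countable (f := fun τ : {τ : Nm QJ | InN N τ} => (vl G τ.2 : MM N G)) ?_
    rintro ⟨x, τ, hτ, rfl⟩
    exact ⟨⟨τ, hτ⟩, rfl⟩
  · letI := rfield all.zok (top_mem all.ok gen) cok re
    letI := rorder all.zok (top_mem all.ok gen) cok re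
    refine ⟨isReals all.ok all.fok all.zok sok cok re gen qj_closed, ?_, fun x hx => ?_,
      convex all.ok all.fok all.zok cok ook re pn gn ns gen t, compact all.ok all.fok all.zok cok ook re pn gn cv gen t⟩
    · obtain ⟨y, hy, hS, _⟩ := exists_posM gn ns gen t gn.bot
      exact ⟨_, (pv_mem_KM all.ok all.fok all.zok cok ook re pn gen hy).mpr hS⟩
    · obtain ⟨y, hy, _, rfl⟩ := (mem_KM pn gen).mp hx
      exact isFun_pv all.ok all.fok all.zok ook re pn gen hy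
  · letI := rfield all.zok (top_mem all.ok gen) cok re
    letI := rorder all.zok (top_mem all.ok gen) cok re
    exact ⟨fun A B hA hB hAB => normal all.ok all.fok all.zok cok ook re pn gn cv pf gen t hA hB hAB,
      fun C hC => gdelta all.ok all.fok all.zok cok ook re pn gn cv pf gen t hC⟩
  · exact not_separable all.ok all.fok all.zok sok cok ook re pn gn pf ns gen t

end Pool.Agent.H55.Jay
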