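import Pool.Agent.H55.Jay.Gn

set_option autoImplicit false
set_option linter.all false

/-!
# Open subsets of the compact set of the model
-/

namespace Pool.Agent.H55.Jay

open Pool.Agent.H12.Jayne Pool.Agent.H55.Lav Pool.Agent.H55.SC Pool.Agent.H55.ZFU Pool.Agent.H55.Sig Pool.Agent.H55.CS
open Pool.Agent.H55.JY

section gen0
variable {Q : Type} [Preorder Q] [OrderTop Q] {N : Set (Un Q)} {G : Set Q}

lemma finite_of (htop : (⊤ : Q) ∈ G) {zok : ZOk N} {F : MM N G} (h : IsFinite (EE (N := N) (G := G)) (ww G zok) F) :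
    {z : MM N G | EE z F}.Finite := by
  obtain ⟨k, f, hk, h1, h2⟩ := h
  obtain ⟨n, rfl⟩ := (mem_ww htop).mp hk
  have h3 : {z : MM N G | EE z F} ⊆ ⋃ m ∈ (Finset.range n : Set ℕ), {z | Rel EE f (nv G zok m) z} := by
    intro z hz
    obtain ⟨x, hx, hxz⟩ := h2 z hz
    obtain ⟨m, hm, rfl⟩ := (mem_nv htop).mp hx
    exact Set.mem_biUnion (Finset.mem_coe.mpr (Finset.mem_range.mpr hm)) hxz
  refine Set.Finite.subset (Set.Finite.biUnion (Finset.finite_toSet _) (fun m hm => ?_)) h3
  exact Set.Subsingleton.finite (fun y hy z hz =>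
    h1 (nv G zok m) y z ((mem_nv htop).mpr ⟨m, Finset.mem_range.mp (Finset.mem_coe.mp hm), rfl⟩) hy hz)

variable (ok : NOk N) (fok : FOk N) (zok : ZOk N) (gen : GenF N G)

include ok fok gen in
/-- Finite sets of elements of the model belong to the model. -/
lemma exists_fin (l : List (MM N G)) : ∃ F : MM N G, (∀ z, EE z F ↔ z ∈ l) ∧ IsFinite (EE (N := N) (G := G)) (ww G zok) F := by
  have htop := top_mem ok gen
  letI := mdl ok fok zok gen
  haveI : ZFU.Pure (MM N G) := zPure (zf ok fok zok gen)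
  suffices h : ∃ (n : ℕ) (F f : MM N G), (∀ z, z ∈ F ↔ z ∈ l) ∧ (∀ x y, Rel Model.E f x y → ∃ m < n, x = nv G zok m) ∧
      (∀ x y z, Rel Model.E f x y → Rel Model.E f x z → y = z) ∧ ∀ y, y ∈ F → ∃ m < n, Rel Model.E f (nv G zok m) y by
    obtain ⟨n, F, f, h1, _, h3, h4⟩ := h
    refine ⟨F, h1, nv G zok n, f, (mem_ww htop).mpr ⟨n, rfl⟩, fun x y z _ hy hz => h3 x y z hy hz, fun y hy => ?_⟩
    obtain ⟨m, hm, hr⟩ := h4 y hy
    exact ⟨nv G zok m, (mem_nv htop).mpr ⟨m, hm, rfl⟩, hr⟩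
  induction l with
  | nil =>
    refine ⟨0, ∅, ∅, fun z => by simp, fun x y h => ?_, fun x y z h => ?_, fun y hy => ?_⟩
    · rw [rel_iff] at h; exact absurd h (by simp)
    · rw [rel_iff] at h; exact absurd h (by simp)
    · exact absurd hy (by simp)
  | cons a l ih =>
    obtain ⟨n, F, f, h1, h2, h3, h4⟩ := ih
    have hrel : ∀ x y, Rel Model.E (un f (sing (opair (nv G zok n) a))) x y ↔ Rel Model.E f x y ∨ (x = nv G zok n ∧ y = a) := by
      intro x y
      rw [rel_iff, rel_iff, mem_un, mem_sing, opair_inj]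
    refine ⟨n + 1, un F (sing a), un f (sing (opair (nv G zok n) a)), fun z => ?_, fun x y h => ?_, fun x y z hy hz => ?_,
      fun y hy => ?_⟩
    · rw [mem_un, mem_sing, h1, List.mem_cons]; tauto
    · rcases (hrel x y).mp h with h | ⟨h, _⟩
      · obtain ⟨m, hm, e⟩ := h2 x y h
        exact ⟨m, by omega, e⟩
      · exact ⟨n, by omega, h⟩
    · rcases (hrel x y).mp hy with h | ⟨h, e⟩ <;> rcases (hrel x z).mp hz with h' | ⟨h', e'⟩
      · exact h3 x y z h h'
      · exfalso
        obtain ⟨m, hm, e⟩ := h2 x y h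
        rw [h'] at e
        have := nv_inj (zok := zok) htop e
        omega
      · exfalso
        obtain ⟨m, hm, e⟩ := h2 x z h'
        rw [h] at e
        have := nv_inj (zok := zok) htop e
        omega
      · rw [e, e']
    · rw [mem_un, mem_sing] at hy
      rcases hy with hy | rfl
      · obtain ⟨m, hm, hr⟩ := h4 y hy
        exact ⟨m, by omega, (hrel _ _).mpr (Or.inl hr)⟩
      · exact ⟨n, by omega, (hrel _ _).mpr (Or.inr ⟨rfl, rfl⟩)⟩

lemma inT_inv_nat (re : ReOk N) (n : ℕ) : InT N (1 / ((n : ℝ) + 1)) := by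
  have h : (1 / ((n : ℝ) + 1)) ∈ RF re := div_mem (one_mem _) (add_mem (natCast_mem _ n) (one_mem _))
  exact h

end gen0

section
variable {N : Set (Un QJ)} {G : Set QJ} (ok : NOk N) (fok : FOk N) (zok : ZOk N) (cok : COk N) (ook : OOk N)
  (re : ReOk N) (pn : PnOk N) (gn : GnOk N) (gen : GenF N G)

/-- In the model, `O` is an open subset of the compact set. -/
def OpM (O : MM N G) : Prop :=
  letI := rfield zok (top_mem ok gen) cok re
  letI := rorder zok (top_mem ok gen) cok re
  IsOpenIn (EE (N := N) (G := G)) (ww G zok) (RR G re) (IM pn G) (KM pn G) O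

/-- The condition of openness expressed by the points. -/
def Sem (O : MM N G) : Prop := (∀ z, EE z O → EE z (KM pn G)) ∧ ∀ y (h : InT N y), EE (pv pn G h) O →
  ∃ (L : Finset (Ω1 × List ℕ)) (e : ℝ), (∀ i ∈ L, InT N i) ∧ 0 < e ∧ ∀ y' (h' : InT N y'), Ht G (SK y') →
    (∀ i ∈ L, |pe y' i - pe y i| < e) → EE (pv pn G h') O

include fok ook in
theorem opM_iff {O : MM N G} : OpM ok zok cok re pn gen O ↔ Sem pn O := by
  classical
  have htop := top_mem ok gen
  letI := rfield zok (top_mem ok gen) cok re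
  letI := rorder zok (top_mem ok gen) cok re
  constructor
  · rintro ⟨h1, h2⟩
    refine ⟨h1, fun y hy hyO => ?_⟩
    obtain ⟨F, ε, hFI, hF, hε, h3⟩ := h2 _ hyO
    have hfin := finite_of htop hF
    have hL : {i : Ω1 × List ℕ | ∃ h : InT N i, EE (iv pn G h) F}.Finite := by
      have hinj : Function.Injective (fun i : {i : Ω1 × List ℕ | ∃ h : InT N i, EE (iv pn G h) F} =>
          (⟨iv pn G i.2.choose, i.2.choose_spec⟩ : {z : MM N G | EE z F})) := by
        intro i j hij
        have h := congrArg Subtype.val hij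
        exact Subtype.ext (iv_inj (hi := i.2.choose) (hj := j.2.choose) ok fok zok ook pn gen h)
      have : Finite {z : MM N G | EE z F} := hfin.to_subtype
      have hfi := Finite.of_injective _ hinj
      exact Set.toFinite _
    refine ⟨hL.toFinset, (rr htop re ε : ℝ), fun i hi => ?_, ?_, fun y' hy' hS hn => ?_⟩
    · obtain ⟨h, _⟩ := hL.mem_toFinset.mp hi
      exact h
    · have h4 := (rr_lt zok htop cok re).mp hε
      rw [rr_zero zok htop cok re] at h4
      exact h4
    · refine h3 _ ((pv_mem_KM ok fok zok cok ook re pn gen hy').mpr hS) (fun x hx a b ha hb => ?_)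
      obtain ⟨i, hi, rfl⟩ := (mem_IM pn htop).mp (hFI x hx)
      have ha' := (rel_pv' ok fok zok ook re pn gen hy hi).mp ha
      have hb' := (rel_pv' ok fok zok ook re pn gen hy' hi).mp hb
      have ea : (rr htop re a : ℝ) = pe y i := rr_eq (hy := pn.ev y hy i hi) zok htop cok re a ha'
      have eb : (rr htop re b : ℝ) = pe y' i := rr_eq (hy := pn.ev y' hy' i hi) zok htop cok re b hb'
      have h5 := hn i (hL.mem_toFinset.mpr ⟨hi, hx⟩)
      rw [abs_lt] at h5
      constructor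
      · rw [rr_lt zok htop cok re, rr_add zok htop cok re]
        show (rr htop re a : ℝ) < (rr htop re b : ℝ) + (rr htop re ε : ℝ)
        rw [ea, eb]; linarith [h5.1]
      · rw [rr_lt zok htop cok re, rr_add zok htop cok re]
        show (rr htop re b : ℝ) < (rr htop re a : ℝ) + (rr htop re ε : ℝ)
        rw [ea, eb]; linarith [h5.2]
  · rintro ⟨h1, h2⟩
    refine ⟨h1, fun x hx => ?_⟩
    obtain ⟨y, hy, hS, rfl⟩ := (mem_KM pn gen).mp (h1 x hx)
    obtain ⟨L, e, hL, he, h3⟩ := h2 y hy hx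
    have Hf := exists_fin ok fok zok gen (L.attach.toList.map (fun i => iv pn G (hL i.1 i.2)))
    obtain ⟨F, hF1, hF2⟩ := Hf
    obtain ⟨n, hn⟩ := exists_nat_one_div_lt he
    let ε : El (EE (N := N) (G := G)) (RR G re) := ⟨rv G re (inT_inv_nat re n), (mem_RR htop re).mpr ⟨_, _, rfl⟩⟩
    have eε : (rr htop re ε : ℝ) = 1 / ((n : ℝ) + 1) := rr_eq (hy := inT_inv_nat re n) zok htop cok re ε rfl
    have hF : ∀ z, EE z F ↔ ∃ i, ∃ h : i ∈ L, z = iv pn G (hL i h) := by
      intro z
      rw [hF1]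
      simp only [List.mem_map, Finset.mem_toList, Finset.mem_attach, true_and, Subtype.exists]
      constructor
      · rintro ⟨i, hi, rfl⟩; exact ⟨i, hi, rfl⟩
      · rintro ⟨i, hi, rfl⟩; exact ⟨i, hi, rfl⟩
    refine ⟨F, ε, fun z hz => ?_, hF2, ?_, fun z hz hnear => ?_⟩
    · obtain ⟨i, hi, rfl⟩ := (hF z).mp hz
      exact (mem_IM pn htop).mpr ⟨i, hL i hi, rfl⟩
    · rw [rr_lt zok htop cok re, rr_zero zok htop cok re]
      show (0 : ℝ) < (rr htop re ε : ℝ)
      rw [eε]; positivity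
    · obtain ⟨y', hy', hS', rfl⟩ := (mem_KM pn gen).mp hz
      refine h3 y' hy' hS' (fun i hi => ?_)
      let a : El (EE (N := N) (G := G)) (RR G re) := ⟨rv G re (pn.ev y hy i (hL i hi)), (mem_RR htop re).mpr ⟨_, _, rfl⟩⟩
      let b : El (EE (N := N) (G := G)) (RR G re) := ⟨rv G re (pn.ev y' hy' i (hL i hi)), (mem_RR htop re).mpr ⟨_, _, rfl⟩⟩
      have ea : (rr htop re a : ℝ) = pe y i := rr_eq (hy := pn.ev y hy i (hL i hi)) zok htop cok re a rfl
      have eb : (rr htop re b : ℝ) = pe y' i := rr_eq (hy := pn.ev y' hy' i (hL i hi)) zok htop cok re b rfl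
      obtain ⟨h4, h5⟩ := hnear _ ((hF _).mpr ⟨i, hi, rfl⟩) a b ((rel_pv' ok fok zok ook re pn gen hy (hL i hi)).mpr rfl)
        ((rel_pv' ok fok zok ook re pn gen hy' (hL i hi)).mpr rfl)
      rw [rr_lt zok htop cok re, rr_add zok htop cok re] at h4 h5
      have h4' : (rr htop re a : ℝ) < (rr htop re b : ℝ) + (rr htop re ε : ℝ) := h4
      have h5' : (rr htop re b : ℝ) < (rr htop re a : ℝ) + (rr htop re ε : ℝ) := h5
      rw [ea, eb, eε] at h4' h5'
      rw [abs_lt]
      constructor <;> linarith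

end

end Pool.Agent.H55.Jay
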