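import Pool.Agent.H55.Jay.Cv

set_option autoImplicit false
set_option linter.all false

/-!
# The compact set of the model is compact and perfectly normal
-/

namespace Pool.Agent.H55.Jay

open Pool.Agent.H12.Jayne Pool.Agent.H55.Lav Pool.Agent.H55.SC Pool.Agent.H55.ZFU Pool.Agent.H55.Sig Pool.Agent.H55.CS
open Pool.Agent.H55.JY

lemma nb_pi {ι : Type} {U : Set (ι → ℝ)} (hU : IsOpen U) {y : ι → ℝ} (hy : y ∈ U) :
    ∃ (L : Finset ι) (e : ℝ), 0 < e ∧ ∀ y' : ι → ℝ, (∀ i ∈ L, |y' i - y i| < e) → y' ∈ U := by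
  classical
  obtain ⟨I, u, h1, h2⟩ := isOpen_pi_iff.mp hU y hy
  have h3 : ∀ i : ι, ∃ ε : ℝ, 0 < ε ∧ (i ∈ I → ∀ r : ℝ, |r - y i| < ε → r ∈ u i) := by
    intro i
    by_cases hi : i ∈ I
    · obtain ⟨ε, hε, hb⟩ := Metric.isOpen_iff.mp (h1 i hi).1 (y i) (h1 i hi).2
      exact ⟨ε, hε, fun _ r hr => hb (by rw [Metric.mem_ball, Real.dist_eq]; exact hr)⟩
    · exact ⟨1, one_pos, fun h => absurd h hi⟩
  choose ε hε1 hε2 using h3
  have h4 : ∃ e : ℝ, 0 < e ∧ ∀ i ∈ I, e ≤ ε i := by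
    clear h2 h1 hε2
    induction I using Finset.induction_on with
    | empty => exact ⟨1, one_pos, by simp⟩
    | insert a I _ ih =>
      obtain ⟨e, he, h⟩ := ih
      refine ⟨min e (ε a), lt_min he (hε1 a), fun i hi => ?_⟩
      rcases Finset.mem_insert.mp hi with rfl | hi
      · exact min_le_right _ _
      · exact (min_le_left _ _).trans (h i hi)
  obtain ⟨e, he, h5⟩ := h4
  exact ⟨I, e, he, fun y' hy' => h2 (fun i hi => hε2 i hi _ ((hy' i hi).trans_le (h5 i hi)))⟩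

lemma nb_pt {Z : Set Pt} (hZ : IsOpen Z) {y : Pt} (hy : y ∈ Z) :
    ∃ (L : Finset (Ω1 × List ℕ)) (e : ℝ), 0 < e ∧ ∀ y' : Pt, (∀ i ∈ L, |pe y' i - pe y i| < e) → y' ∈ Z := by
  have hc : Continuous (fun v : Ω1 × List ℕ → ℝ => (fun b t => v (b, t) : Pt)) := by fun_prop
  obtain ⟨L, e, he, h⟩ := nb_pi (hZ.preimage hc) (y := fun i => y i.1 i.2) hy
  exact ⟨L, e, he, fun y' hy' => h (fun i => y' i.1 i.2) hy'⟩

/-- The points outside of the closure of the basic open set with the code `c`. -/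
def Zc (c : Code Ω1) : Set Pt := {y | ev c y ∉ closure (c.sh.O : Set (ZZ c.sh.s c.sh.n))}

/-- The points outside of the closures of the basic open sets with codes in `J`. -/
def ZJ (J : Finset (Code Ω1)) : Set Pt := {y | ∀ c ∈ J, y ∈ Zc c}

lemma isOpen_Zc (c : Code Ω1) : IsOpen (Zc c) := isClosed_closure.isOpen_compl.preimage (continuous_ev c)

lemma isOpen_ZJ (J : Finset (Code Ω1)) : IsOpen (ZJ J) := by
  have : ZJ J = ⋂ c ∈ (J : Set (Code Ω1)), Zc c := by ext y; simp [ZJ]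
  rw [this]
  exact (Finset.finite_toSet J).isOpen_biInter (fun c _ => isOpen_Zc c)

/-- Closure properties of `N` used for open sets. -/
structure PfOk (N : Set (Un QJ)) : Prop where
  nat : ∀ n : ℕ, InT N n
  nb : ∀ Z : Set Pt, InT N Z → ∀ y : Pt, InT N y → (IsOpen Z ∧ y ∈ Z) →
    ∃ (L : Finset (Ω1 × List ℕ)) (e : ℝ), (∀ i ∈ L, InT N i) ∧ 0 < e ∧ ∀ y' : Pt, (∀ i ∈ L, |pe y' i - pe y i| < e) → y' ∈ Z
  enum : ∀ B : Set (Code Ω1), InT N B → B.Countable → ∃ f : ℕ → Set Pt, InT N f ∧ (∀ n, InT N (f n)) ∧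
    (∀ n, f n = Set.univ ∨ ∃ c ∈ B, f n = Zc c) ∧ ∀ c ∈ B, ∃ n, f n = Zc c
  fn : ∀ f : ℕ → Set Pt, InT N f → FnOk N (fun n : ℕ => opN (ck QJ n) (KN (f n)))
  app : ∀ f : ℕ → Set Pt, InT N f → ∀ n : ℕ, InT N (f n)
  two : ∀ τ : Nm QJ, InN N τ → ∀ σ : Nm QJ, InN N σ → InT N (fun c => Fc τ c ∪ Fc σ c)
  zj : ∀ α : Ω1, InT N α → ∀ J : Finset (Code Ω1), (∀ c ∈ J, Below c α) → InT N (ZJ J)

lemma exists_enumf {B : Set (Code Ω1)} (hB : B.Countable) : ∃ f : ℕ → Set Pt,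
    (∀ n, f n = Set.univ ∨ ∃ c ∈ B, f n = Zc c) ∧ ∀ c ∈ B, ∃ n, f n = Zc c := by
  rcases B.eq_empty_or_nonempty with rfl | hne
  · exact ⟨fun _ => Set.univ, fun _ => Or.inl rfl, fun c hc => hc.elim⟩
  · obtain ⟨e, rfl⟩ := hB.exists_eq_range hne
    exact ⟨fun n => Zc (e n), fun n => Or.inr ⟨e n, ⟨n, rfl⟩, rfl⟩, by rintro _ ⟨n, rfl⟩; exact ⟨n, rfl⟩⟩

lemma pfOk_club : ∀ᶠ N in club (Un QJ), PfOk N := by
  have h1 : ∀ᶠ N in club (Un QJ), ∀ Z : Set Pt, InT N Z → ∀ y : Pt, InT N y → (IsOpen Z ∧ y ∈ Z) →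
      ∃ (L : Finset (Ω1 × List ℕ)) (e : ℝ), (∀ i ∈ L, InT N i) ∧ 0 < e ∧
        ∀ y' : Pt, (∀ i ∈ L, |pe y' i - pe y i| < e) → y' ∈ Z := by
    refine diagT (fun Z => diagT (fun y => ?_))
    by_cases h : IsOpen Z ∧ y ∈ Z
    · obtain ⟨L, e, he, hL⟩ := nb_pt h.1 h.2
      have : ∀ᶠ N in club (Un QJ), ∀ i : L, InT N i.1 := club_all (fun i => club_inT _)
      exact this.mono (fun N hN _ => ⟨L, e, fun i hi => hN ⟨i, hi⟩, he, hL⟩)
    · exact Filter.Eventually.of_forall (fun N h' => (h h').elim)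
  have h2 : ∀ᶠ N in club (Un QJ), ∀ B : Set (Code Ω1), InT N B → B.Countable → ∃ f : ℕ → Set Pt, InT N f ∧
      (∀ n, InT N (f n)) ∧ (∀ n, f n = Set.univ ∨ ∃ c ∈ B, f n = Zc c) ∧ ∀ c ∈ B, ∃ n, f n = Zc c := by
    refine diagT (fun B => ?_)
    by_cases h : B.Countable
    · obtain ⟨f, h1, h2⟩ := exists_enumf h
      filter_upwards [club_inT f, club_all (fun n => club_inT (f n))] with N h3 h4 _
      exact ⟨f, h3, h4, h1, h2⟩
    · exact Filter.Eventually.of_forall (fun N h' => (h h').elim)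
  have h3 : ∀ᶠ N in club (Un QJ), ∀ f : ℕ → Set Pt, InT N f → FnOk N (fun n : ℕ => opN (ck QJ n) (KN (f n))) :=
    diagT (fun f => fnOk_club _)
  have h4 : ∀ᶠ N in club (Un QJ), ∀ f : ℕ → Set Pt, InT N f → ∀ n : ℕ, InT N (f n) :=
    diagT (fun f => club_all (fun n => club_inT _))
  have h5 : ∀ᶠ N in club (Un QJ), ∀ τ : Nm QJ, InN N τ → ∀ σ : Nm QJ, InN N σ → InT N (fun c => Fc τ c ∪ Fc σ c) :=
    diagN (fun τ => diagN (fun σ => club_inT _))
  have h6 : ∀ᶠ N in club (Un QJ), ∀ α : Ω1, InT N α → ∀ J : Finset (Code Ω1), (∀ c ∈ J, Below c α) → InT N (ZJ J) := by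
    refine diagT (fun α => ?_)
    have hc : Countable ↥{c : Code Ω1 | Below c α} := (countable_below α).to_subtype
    have hc2 : Countable {J : Finset (Code Ω1) | ∀ c ∈ J, Below c α} := by
      classical
      let g : Finset ↥{c : Code Ω1 | Below c α} → Finset (Code Ω1) := fun J => J.map (Function.Embedding.subtype _)
      refine ((Set.countable_range g).mono ?_).to_subtype
      intro J hJ
      refine ⟨J.attach.map ⟨fun c => ⟨c.1, hJ c.1 c.2⟩, fun a b hab => by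
        have := congrArg (fun z : ↥{c : Code Ω1 | Below c α} => z.1) hab
        exact Subtype.ext this⟩, ?_⟩
      ext c
      simp [g]
      exact fun h => hJ c h
    exact (club_all (fun J : {J : Finset (Code Ω1) | ∀ c ∈ J, Below c α} => club_inT (ZJ J.1))).mono
      (fun N hN J hJ => hN ⟨J, hJ⟩)
  filter_upwards [club_all (fun n : ℕ => club_inT n), h1, h2, h3, h4, h5, h6] with N a1 a2 a3 a4 a5 a6 a7
  exact ⟨a1, a2, a3, a4, a5, a6, a7⟩

section
variable {N : Set (Un QJ)} {G : Set QJ} (ok : NOk N) (fok : FOk N) (zok : ZOk N) (cok : COk N) (ook : OOk N)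
  (re : ReOk N) (pn : PnOk N) (gn : GnOk N) (cv : CvOk N) (pf : PfOk N) (gen : GenF N G)

include ok fok zok cok ook re pf gen in
lemma sem_kv {Z : Set Pt} (hZ : InT N Z) (hZo : IsOpen Z) : Sem pn (kv pn G hZ) := by
  refine ⟨fun z hz => ?_, fun y hy hyZ => ?_⟩
  · obtain ⟨y, hy, h1, _, rfl⟩ := (mem_kv pn gen hZ).mp hz
    exact (pv_mem_KM ok fok zok cok ook re pn gen hy).mpr h1
  · obtain ⟨_, h2⟩ := (pv_mem_kv ok fok zok cok ook re pn gen hZ hy).mp hyZ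
    obtain ⟨L, e, h3, h4, h5⟩ := pf.nb Z hZ y hy ⟨hZo, h2⟩
    exact ⟨L, e, h3, h4, fun y' h' hS hn => (pv_mem_kv ok fok zok cok ook re pn gen hZ h').mpr ⟨hS, h5 y' hn⟩⟩

/-- In the model, `C` is a closed subset of the compact set. -/
def ClM (C : MM N G) : Prop :=
  letI := rfield zok (top_mem ok gen) cok re
  letI := rorder zok (top_mem ok gen) cok re
  IsClosedIn (EE (N := N) (G := G)) (ww G zok) (RR G re) (IM pn G) (KM pn G) C

include fok ook in
lemma clM_compl {C : MM N G} (hC : ClM ok zok cok re pn gen C) : ∃ τ, ∃ hτ : InN N τ, Sem pn (vl G hτ) ∧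
    ∀ x, EE x (vl G hτ) ↔ EE x (KM pn G) ∧ ¬ EE x C := by
  letI := mdl ok fok zok gen
  haveI : ZFU.Pure (MM N G) := zPure (zf ok fok zok gen)
  have h : ∀ x, EE x (diff (KM pn G) C) ↔ EE x (KM pn G) ∧ ¬ EE x C := fun x => by
    have h3 : x ∈ diff (KM pn G) C ↔ x ∈ KM pn G ∧ x ∉ C := mem_diff
    exact h3
  have h2 : OpM ok zok cok re pn gen (diff (KM pn G) C) := hC.2 _ h
  obtain ⟨τ, hτ, e⟩ := (diff (KM pn G) C).2
  have e' : diff (KM pn G) C = vl G hτ := Subtype.ext e.symm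
  rw [e'] at h h2
  exact ⟨τ, hτ, (opM_iff ok fok zok cok ook re pn gen).mp h2, h⟩

include fok ook gn cv pf in
/-- Closed sets are intersections of sequences of open sets. -/
theorem gdelta {d : Tr} (t : Tot G d) {C : MM N G} (hC : ClM ok zok cok re pn gen C) :
    letI := rfield zok (top_mem ok gen) cok re
    letI := rorder zok (top_mem ok gen) cok re
    IsGdelta (EE (N := N) (G := G)) (ww G zok) (RR G re) (IM pn G) (KM pn G) C := by
  have htop := top_mem ok gen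
  letI := rfield zok (top_mem ok gen) cok re
  letI := rorder zok (top_mem ok gen) cok re
  obtain ⟨τ, hτ, hO, hO'⟩ := clM_compl ok fok zok cok ook re pn gen hC
  have hFN : InT N (Fc τ) := (gn.fc τ hτ).1
  obtain ⟨α, hα, q, hq, h1, h2⟩ := gcover' gn cv gen t (fun c p q h h' => fc_mono h h') hFN
  have hBN := cv.bs _ hFN α hα q (gen.sub q hq)
  have hBc : (Bs (Fc τ) α q).Countable := (countable_below α).mono (fun c hc => hc.1)
  obtain ⟨f, hf, hfn, hf1, hf2⟩ := pf.enum _ hBN hBc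
  have hFn := pf.fn f hf
  have hsN : ∀ n : ℕ, InT N n → InN N (ck QJ n) := fun n _ => zok.nat n
  have htN : ∀ n : ℕ, InT N n → InN N (KN (f n)) := fun n _ => pn.kN _ (hfn n)
  let u : MM N G := vl G hFn.rg
  have hrel : ∀ n x, Rel (EE (N := N) (G := G)) u (nv G zok n) x ↔ x = kv pn G (hfn n) := by
    intro n x
    rw [show u = vl G hFn.rg from rfl, rel_rg ok fok zok gen hsN htN hFn]
    constructor
    · rintro ⟨m, hm, h3, h4⟩
      have : n = m := nv_inj (zok := zok) htop h3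
      subst this
      exact h4
    · rintro rfl
      exact ⟨n, pf.nat n, rfl, rfl⟩
  have hopen : ∀ n, IsOpen (f n) := by
    intro n
    rcases hf1 n with h | ⟨c, _, h⟩
    · rw [h]; exact isOpen_univ
    · rw [h]; exact isOpen_Zc c
  refine ⟨u, fun k hk => ?_, fun k O hk hr => ?_, fun x => ?_⟩
  · obtain ⟨n, rfl⟩ := (mem_ww htop).mp hk
    exact ⟨_, (hrel n _).mpr rfl, fun y hy => (hrel n y).mp hy⟩
  · obtain ⟨n, rfl⟩ := (mem_ww htop).mp hk
    rw [hrel] at hr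
    subst hr
    exact (opM_iff ok fok zok cok ook re pn gen).mpr (sem_kv ok fok zok cok ook re pn pf gen (hfn n) (hopen n))
  · constructor
    · intro hx
      have hxK := hC.1 x hx
      refine ⟨hxK, fun k O hk hr => ?_⟩
      obtain ⟨n, rfl⟩ := (mem_ww htop).mp hk
      rw [hrel] at hr
      subst hr
      obtain ⟨y, hy, hS, rfl⟩ := (mem_KM pn gen).mp hxK
      refine (pv_mem_kv ok fok zok cok ook re pn gen (hfn n) hy).mpr ⟨hS, ?_⟩
      rcases hf1 n with h | ⟨c, hc, h⟩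
      · rw [h]; trivial
      · rw [h]
        intro hev
        have h3 := (fc_iff ok pn gn gen hτ (gn.seg α hα c hc.1)).mp ⟨q, hq, hc.2⟩ y hy hS hev
        exact ((hO' _).mp h3).2 hx
    · rintro ⟨hxK, hx⟩
      obtain ⟨y, hy, hS, rfl⟩ := (mem_KM pn gen).mp hxK
      by_contra hnC
      have hyO : EE (pv pn G hy) (vl G hτ) := (hO' _).mpr ⟨hxK, hnC⟩
      obtain ⟨c, hc, hev⟩ := h2 y (t.mem hS) ((nb_of_sem pn gn gen hO hy hyO).mono (fun c hc =>
        ⟨hc.1, (fc_iff ok pn gn gen hτ hc.1).mpr hc.2⟩))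
      obtain ⟨n, hn⟩ := hf2 c hc
      have h3 := hx (nv G zok n) _ ((mem_ww htop).mpr ⟨n, rfl⟩) ((hrel n _).mpr rfl)
      have h4 := ((pv_mem_kv ok fok zok cok ook re pn gen (hfn n) hy).mp h3).2
      rw [hn] at h4
      exact h4 (subset_closure hev)

include fok ook gn cv pf in
/-- Disjoint closed sets are separated by open sets. -/
theorem normal {d : Tr} (t : Tot G d) {A B : MM N G} (hA : ClM ok zok cok re pn gen A) (hB : ClM ok zok cok re pn gen B)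
    (hAB : ∀ x, EE x A → ¬ EE x B) : ∃ U V, OpM ok zok cok re pn gen U ∧ OpM ok zok cok re pn gen V ∧
      (∀ x, EE x A → EE x U) ∧ (∀ x, EE x B → EE x V) ∧ ∀ x, EE x U → ¬ EE x V := by
  classical
  have htop := top_mem ok gen
  obtain ⟨τ, hτ, hO, hO'⟩ := clM_compl ok fok zok cok ook re pn gen hA
  obtain ⟨σ, hσ, hP, hP'⟩ := clM_compl ok fok zok cok ook re pn gen hB
  have hFN := pf.two τ hτ σ hσ
  have hFm : ∀ c p q, p ∈ Fc τ c ∪ Fc σ c → q ≤ p → q ∈ Fc τ c ∪ Fc σ c := by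
    intro c p q h h'
    rcases h with h | h
    · exact Or.inl (fc_mono h h')
    · exact Or.inr (fc_mono h h')
  obtain ⟨α, hα, J, hJ1, hJ2⟩ := fcover gn cv gen t hFm hFN (fun y hy hS => by
    have hK := (pv_mem_KM ok fok zok cok ook re pn gen hy).mpr hS
    by_cases hyA : EE (pv pn G hy) A
    · have hyP : EE (pv pn G hy) (vl G hσ) := (hP' _).mpr ⟨hK, hAB _ hyA⟩
      refine (nb_of_sem pn gn gen hP hy hyP).mono (fun c hc => ⟨hc.1, ?_⟩)
      obtain ⟨r, hr, h⟩ := (fc_iff ok pn gn gen hσ hc.1).mpr hc.2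
      exact ⟨r, hr, Or.inr h⟩
    · have hyO : EE (pv pn G hy) (vl G hτ) := (hO' _).mpr ⟨hK, hyA⟩
      refine (nb_of_sem pn gn gen hO hy hyO).mono (fun c hc => ⟨hc.1, ?_⟩)
      obtain ⟨r, hr, h⟩ := (fc_iff ok pn gn gen hτ hc.1).mpr hc.2
      exact ⟨r, hr, Or.inl h⟩)
  let JA := J.filter (fun c => Ht G (Fc τ c))
  let JB := J.filter (fun c => ¬ Ht G (Fc τ c))
  have hZA : InT N (ZJ JA) := pf.zj α hα JA (fun c hc => (hJ1 c (Finset.mem_of_mem_filter _ hc)).1)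
  have hZB : InT N (ZJ JB) := pf.zj α hα JB (fun c hc => (hJ1 c (Finset.mem_of_mem_filter _ hc)).1)
  refine ⟨kv pn G hZA, kv pn G hZB,
    (opM_iff ok fok zok cok ook re pn gen).mpr (sem_kv ok fok zok cok ook re pn pf gen hZA (isOpen_ZJ _)),
    (opM_iff ok fok zok cok ook re pn gen).mpr (sem_kv ok fok zok cok ook re pn pf gen hZB (isOpen_ZJ _)),
    fun x hx => ?_, fun x hx => ?_, fun x hx hx' => ?_⟩
  · obtain ⟨y, hy, hS, rfl⟩ := (mem_KM pn gen).mp (hA.1 x hx)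
    refine (pv_mem_kv ok fok zok cok ook re pn gen hZA hy).mpr ⟨hS, fun c hc hev => ?_⟩
    obtain ⟨hc1, hc2⟩ := Finset.mem_filter.mp hc
    have h3 := (fc_iff ok pn gn gen hτ (gn.seg α hα c (hJ1 c hc1).1)).mp hc2 y hy hS hev
    exact ((hO' _).mp h3).2 hx
  · obtain ⟨y, hy, hS, rfl⟩ := (mem_KM pn gen).mp (hB.1 x hx)
    refine (pv_mem_kv ok fok zok cok ook re pn gen hZB hy).mpr ⟨hS, fun c hc hev => ?_⟩
    obtain ⟨hc1, hc2⟩ := Finset.mem_filter.mp hc
    have hc3 : Ht G (Fc σ c) := by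
      obtain ⟨r, hr, h | h⟩ := (hJ1 c hc1).2
      · exact (hc2 ⟨r, hr, h⟩).elim
      · exact ⟨r, hr, h⟩
    have h3 := (fc_iff ok pn gn gen hσ (gn.seg α hα c (hJ1 c hc1).1)).mp hc3 y hy hS hev
    exact ((hP' _).mp h3).2 hx
  · obtain ⟨y, hy, hS, hyA, rfl⟩ := (mem_kv pn gen hZA).mp hx
    have hyB := ((pv_mem_kv ok fok zok cok ook re pn gen hZB hy).mp hx').2
    obtain ⟨c, hc, hev⟩ := hJ2 y (t.mem hS)
    by_cases h : Ht G (Fc τ c)
    · exact hyA c (Finset.mem_filter.mpr ⟨hc, h⟩) (subset_closure hev)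
    · exact hyB c (Finset.mem_filter.mpr ⟨hc, h⟩) (subset_closure hev)

include fok ook gn cv in
/-- Open covers have finite subcovers. -/
theorem compact {d : Tr} (t : Tot G d) : letI := rfield zok (top_mem ok gen) cok re
    letI := rorder zok (top_mem ok gen) cok re
    IsCompact (EE (N := N) (G := G)) (ww G zok) (RR G re) (IM pn G) (KM pn G) := by
  classical
  letI := rfield zok (top_mem ok gen) cok re
  letI := rorder zok (top_mem ok gen) cok re
  intro U hU hcov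
  obtain ⟨τ, hτ, e⟩ := U.2
  have e' : U = vl G hτ := Subtype.ext e.symm
  subst e'
  have hFN : InT N (Fc2 τ) := (gn.fc τ hτ).2
  obtain ⟨α, hα, J, hJ1, hJ2⟩ := fcover gn cv gen t (fun c p q h h' => fc2_mono h h') hFN (fun y hy hS => by
    have hK := (pv_mem_KM ok fok zok cok ook re pn gen hy).mpr hS
    obtain ⟨O, hO, hyO⟩ := hcov _ hK
    have hOs : Sem pn O := (opM_iff ok fok zok cok ook re pn gen).mp (hU O hO)
    exact (nb_of_sem pn gn gen hOs hy hyO).mono (fun c hc => ⟨hc.1, (fc2_iff ok pn gn gen hτ hc.1).mpr ⟨O, hO, hc.2⟩⟩))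
  have hch : ∀ c : J, ∃ O : MM N G, EE O (vl G hτ) ∧ ∀ y (h : InT N y), Ht G (SK y) →
      ev c.1 y ∈ closure (c.1.sh.O : Set (ZZ c.1.sh.s c.1.sh.n)) → EE (pv pn G h) O := fun c =>
    (fc2_iff ok pn gn gen hτ (gn.seg α hα c.1 (hJ1 c.1 c.2).1)).mp (hJ1 c.1 c.2).2
  choose O hO1 hO2 using hch
  have Hf := exists_fin ok fok zok gen (J.attach.toList.map O)
  obtain ⟨V, hV1, hV2⟩ := Hf
  refine ⟨V, fun z hz => ?_, hV2, fun x hx => ?_⟩
  · rw [hV1] at hz
    obtain ⟨c, _, rfl⟩ := List.mem_map.mp hz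
    exact hO1 c
  · obtain ⟨y, hy, hS, rfl⟩ := (mem_KM pn gen).mp hx
    obtain ⟨c, hc, hev⟩ := hJ2 y (t.mem hS)
    refine ⟨O ⟨c, hc⟩, (hV1 _).mpr (List.mem_map.mpr ⟨⟨c, hc⟩, by simp, rfl⟩), hO2 ⟨c, hc⟩ y hy hS (subset_closure hev)⟩

end

end Pool.Agent.H55.Jay
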