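import Pool.Agent.H55.Jay.Re
import Pool.Agent.H55.Sig.Hz6

set_option autoImplicit false
set_option linter.all false

/-!
# The real numbers of the model form a complete ordered field in the model
-/

namespace Pool.Agent.H55.Jay

open Pool.Agent.H55.SC Pool.Agent.H55.ZFU Pool.Agent.H55.Lav Pool.Agent.H55.Sig

variable {Q : Type} [Preorder Q] [OrderTop Q]
variable {N : Set (Un Q)} {G : Set Q}

section
variable (ok : NOk N) (fok : FOk N) (zok : ZOk N) (sok : SOk N) (cok : COk N) (re : ReOk N) (gen : GenF N G)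

include ok fok zok gen in
/-- Pairs of values of names. -/
lemma pair_vl {τ σ : Nm Q} (hτ : InN N τ) (hσ : InN N σ) {p x y : MM N G} (hx : x = vl G hτ) (hy : y = vl G hσ) :
    IsPair (EE (N := N) (G := G)) p x y ↔ p = vl G (inN_op zok hτ hσ) := by
  subst hx; subst hy
  exact pair_eq ok fok zok gen hτ hσ

lemma el_rv (x : El (EE (N := N) (G := G)) (RR G re)) : x.1 = rv G re (rr (top_mem ok gen) re x).2 :=
  rr_spec (top_mem ok gen) re x

include ok fok gen zok cok in
/-- Binary operations on the reals of the model. -/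
lemma intFun₂_of (op : ℝ → ℝ → ℝ) (hop : ∀ x y : ℝ, InT N x → InT N y → InT N (op x y))
    (fn : FnOk N (fun p : ℝ × ℝ => opN (opN (cR Q p.1) (cR Q p.2)) (cR Q (op p.1 p.2))))
    (f : El (EE (N := N) (G := G)) (RR G re) → El (EE (N := N) (G := G)) (RR G re) → El (EE (N := N) (G := G)) (RR G re))
    (hf : ∀ x y, (rr (top_mem ok gen) re (f x y) : ℝ) = op (rr (top_mem ok gen) re x) (rr (top_mem ok gen) re y)) :
    IntFun₂ (EE (N := N) (G := G)) f := by
  have htop := top_mem ok gen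
  have hs : ∀ p : ℝ × ℝ, InT N p → InN N (opN (cR Q p.1) (cR Q p.2)) := fun p hp =>
    inN_op zok (re.rg.fn _ (re.p1 p hp).1) (re.rg.fn _ (re.p1 p hp).2)
  have ht : ∀ p : ℝ × ℝ, InT N p → InN N (cR Q (op p.1 p.2)) := fun p hp =>
    re.rg.fn _ (hop _ _ (re.p1 p hp).1 (re.p1 p hp).2)
  refine ⟨vl G fn.rg, fun x y z => ?_⟩
  have hx := el_rv ok re gen x
  have hy := el_rv ok re gen y
  have hz := el_rv ok re gen z
  constructor
  · intro h
    refine ⟨vl G (inN_op zok (re.rg.fn _ (rr htop re x).2) (re.rg.fn _ (rr htop re y).2)),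
      (pair_vl ok fok zok gen _ _ hx hy).mpr rfl, ?_⟩
    rw [rel_rg ok fok zok gen hs ht fn]
    refine ⟨((rr htop re x : ℝ), (rr htop re y : ℝ)), re.pr _ (rr htop re x).2 _ (rr htop re y).2, rfl, ?_⟩
    rw [hz]
    apply Subtype.ext
    show val N G (cR Q (rr htop re z : ℝ)) = val N G (cR Q (op (rr htop re x) (rr htop re y)))
    rw [← h, hf]
  · rintro ⟨q, hq, hr⟩
    rw [pair_vl ok fok zok gen _ _ hx hy] at hq
    rw [rel_rg ok fok zok gen hs ht fn] at hr
    obtain ⟨p, hp, h1, h2⟩ := hr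
    have h3 := op_pair ok zok gen (re.rg.fn _ (rr htop re x).2) (re.rg.fn _ (rr htop re y).2)
    have h4 := op_pair ok zok gen (re.rg.fn _ (re.p1 p hp).1) (re.rg.fn _ (re.p1 p hp).2)
    rw [← hq, h1] at h3
    obtain ⟨h5, h6⟩ := pair_uniq ok fok zok gen h3 h4
    have e1 : (rr htop re x : ℝ) = p.1 := rv_inj (hx := (rr htop re x).2) (hy := (re.p1 p hp).1) zok htop cok re h5
    have e2 : (rr htop re y : ℝ) = p.2 := rv_inj (hx := (rr htop re y).2) (hy := (re.p1 p hp).2) zok htop cok re h6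
    refine rr_inj zok htop cok re (Subtype.ext ?_)
    rw [hf, e1, e2]
    exact (rr_eq (hy := hop _ _ (re.p1 p hp).1 (re.p1 p hp).2) zok htop cok re z h2).symm

include ok fok gen sok zok cok in
theorem isReals (hσ : SClosed Q) : letI := rfield zok (top_mem ok gen) cok re; letI := rorder zok (top_mem ok gen) cok re;
    IsReals (EE (N := N) (G := G)) (RR G re) := by
  have htop := top_mem ok gen
  letI := rfield zok (top_mem ok gen) cok re
  letI := rorder zok (top_mem ok gen) cok re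
  refine ⟨rstrict zok htop cok re, ?_, ?_, ?_, ?_⟩
  · exact intFun₂_of ok fok zok cok re gen (fun x y => x + y) (fun x y hx hy => re.add x hx y hy) re.addN _ (fun x y => by
      rw [rr_add zok htop cok re]; rfl)
  · exact intFun₂_of ok fok zok cok re gen (fun x y => x * y) (fun x y hx hy => re.mul x hx y hy) re.mulN _ (fun x y => by
      rw [rr_mul zok htop cok re]; rfl)
  · refine ⟨vl G re.ltN.rg, fun x y => ?_⟩
    have hx := el_rv ok re gen x
    have hy := el_rv ok re gen y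
    rw [rel_rg ok fok zok gen (s := fun p : {p : ℝ × ℝ // p.1 < p.2} => cR Q p.1.1) (t := fun p => cR Q p.1.2)
      (fun p hp => re.rg.fn _ (re.p1 _ (re.lt1 p hp)).1) (fun p hp => re.rg.fn _ (re.p1 _ (re.lt1 p hp)).2) re.ltN]
    constructor
    · intro h
      have h' : (rr htop re x : ℝ) < (rr htop re y : ℝ) := (rr_lt zok htop cok re).mp h
      exact ⟨⟨((rr htop re x : ℝ), (rr htop re y : ℝ)), h'⟩, re.lt _ (re.pr _ (rr htop re x).2 _ (rr htop re y).2) h', hx, hy⟩
    · rintro ⟨p, hp, h1, h2⟩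
      have e1 := rr_eq (hy := (re.p1 _ (re.lt1 p hp)).1) zok htop cok re x h1
      have e2 := rr_eq (hy := (re.p1 _ (re.lt1 p hp)).2) zok htop cok re y h2
      refine (rr_lt zok htop cok re).mpr ?_
      show (rr htop re x : ℝ) < (rr htop re y : ℝ)
      rw [e1, e2]; exact p.2
  · rintro S ⟨s, hs⟩ hne hbdd
    letI := mdl ok fok zok gen
    haveI : ZFU.Pure (MM N G) := zPure (zf ok fok zok gen)
    have hom : ww G zok = (omega : MM N G) := omega_iff.mp (isOmega_ww htop)
    -- the union of the cuts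
    have hmem : ∀ z : MM N G, z ∈ bigU (inter s (RR G re)) ↔ ∃ x ∈ S, ∃ n ∈ cut (rr htop re x : ℝ), z = nv G zok n := by
      intro z
      rw [mem_bigU]
      constructor
      · rintro ⟨y, hy, hz⟩
        rw [mem_inter] at hy
        refine ⟨⟨y, hy.2⟩, (hs ⟨y, hy.2⟩).mpr hy.1, ?_⟩
        have h1 := el_rv ok re gen (⟨y, hy.2⟩ : El (EE (N := N) (G := G)) (RR G re))
        exact (mem_rv (z := z) zok htop cok re (rr htop re (⟨y, hy.2⟩ : El (EE (N := N) (G := G)) (RR G re))).2).mp (by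
          rw [← h1]; exact hz)
      · rintro ⟨x, hx, n, hn, rfl⟩
        refine ⟨x.1, mem_inter.mpr ⟨(hs x).mp hx, x.2⟩, ?_⟩
        have h1 := (mem_rv (z := nv G zok n) zok htop cok re (rr htop re x).2).mpr ⟨n, hn, rfl⟩
        rw [← el_rv ok re gen x] at h1
        exact h1
    obtain ⟨A, hA, hAe⟩ := sub_ground (zok := zok) hσ ok sok cok gen (bigU (inter s (RR G re))) (fun z hz => by
      obtain ⟨x, hx, n, hn, rfl⟩ := (hmem z).mp hz
      exact (mem_ww htop).mpr ⟨n, rfl⟩)
    have hA' : ∀ n, n ∈ A ↔ ∃ x ∈ S, n ∈ cut (rr htop re x : ℝ) := by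
      intro n
      rw [← nv_mem_sv (zok := zok) htop cok hA, ← hAe]
      refine (hmem _).trans ?_
      constructor
      · rintro ⟨x, hx, m, hm, h1⟩
        rw [nv_inj (zok := zok) htop h1]
        exact ⟨x, hx, hm⟩
      · rintro ⟨x, hx, hn⟩
        exact ⟨x, hx, n, hn, rfl⟩
    -- the supremum
    let T : Set ℝ := (fun x => (rr htop re x : ℝ)) '' S
    have hTne : T.Nonempty := hne.image _
    have hTb : BddAbove T := by
      obtain ⟨b, hb⟩ := hbdd
      refine ⟨(rr htop re b : ℝ), ?_⟩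
      rintro _ ⟨x, hx, rfl⟩
      exact (rr_le zok htop cok re).mp (hb hx)
    have hcut : cut (sSup T) = A := by
      ext n
      rw [hA']
      show (((Denumerable.eqv ℚ).symm n : ℚ) : ℝ) < sSup T ↔ _
      rw [lt_csSup_iff hTb hTne]
      constructor
      · rintro ⟨_, ⟨x, hx, rfl⟩, h1⟩
        exact ⟨x, hx, h1⟩
      · rintro ⟨x, hx, h1⟩
        exact ⟨_, ⟨x, hx, rfl⟩, h1⟩
    obtain ⟨y, hy, hyN⟩ := re.ctw A hA ⟨_, hcut⟩
    have hyT : y = sSup T := cut_inj (hy.trans hcut.symm)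
    let Y : El (EE (N := N) (G := G)) (RR G re) := ⟨rv G re hyN, (mem_RR htop re).mpr ⟨y, hyN, rfl⟩⟩
    have hY : (rr htop re Y : ℝ) = sSup T := (rr_eq (hy := hyN) zok htop cok re Y rfl).trans hyT
    refine ⟨Y, fun x hx => ?_, fun b hb => ?_⟩
    · refine (rr_le zok htop cok re).mpr ?_
      show (rr htop re x : ℝ) ≤ (rr htop re Y : ℝ)
      rw [hY]
      exact le_csSup hTb ⟨x, hx, rfl⟩
    · refine (rr_le zok htop cok re).mpr ?_
      show (rr htop re Y : ℝ) ≤ (rr htop re b : ℝ)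
      rw [hY]
      refine csSup_le hTne ?_
      rintro _ ⟨x, hx, rfl⟩
      exact (rr_le zok htop cok re).mp (hb hx)

end

end Pool.Agent.H55.Jay
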