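import Pool.Agent.H55.Jay.Cov
import Pool.Agent.H55.Jay.Re2
import Pool.Agent.H55.Jay.JDefs

set_option autoImplicit false
set_option linter.all false

/-!
# Names of points and of subsets of the compact set
-/

namespace Pool.Agent.H55.Jay

open Pool.Agent.H12.Jayne Pool.Agent.H55.Lav Pool.Agent.H55.SC Pool.Agent.H55.ZFU Pool.Agent.H55.Sig Pool.Agent.H55.CS

/-- The name of an index. -/
noncomputable def iN (i : Ω1 × List ℕ) : Nm QJ := opN (ck QJ i.1) (ck QJ (Encodable.encode i.2 : ℕ))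

/-- The value of a point at an index. -/
def pe (y : Pt) (i : Ω1 × List ℕ) : ℝ := y i.1 i.2

/-- The name of a point. -/
noncomputable def pN (y : Pt) : Nm QJ := .mk (Ω1 × List ℕ) (fun i => opN (iN i) (cR QJ (pe y i))) (fun _ => ⊤)

/-- The name of the intersection of the compact set with `Z`. -/
noncomputable def KN (Z : Set Pt) : Nm QJ := .mk (Σ y : Pt, {q : QJ // q ∈ SK y ∧ y ∈ Z}) (fun z => pN z.1) (fun z => z.2.1)

/-- Closure properties of `N` used for points. -/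
structure PnOk (N : Set (Un QJ)) : Prop where
  idx : FnOk N iN
  mki : ∀ α : Ω1, InT N α → ∀ t : List ℕ, InT N ((α, t) : Ω1 × List ℕ)
  i1 : ∀ i : Ω1 × List ℕ, InT N i → InT N i.1
  pfn : FnOk N pN
  pw : ∀ y : Pt, InT N y → ∀ ρ, InN N ρ → (∃ i, opN (iN i) (cR QJ (pe y i)) = ρ) →
    ∃ i, opN (iN i) (cR QJ (pe y i)) = ρ ∧ InT N i
  ev : ∀ y : Pt, InT N y → ∀ i : Ω1 × List ℕ, InT N i → InT N (pe y i)
  dif : ∀ y : Pt, InT N y → ∀ y' : Pt, InT N y' → y ≠ y' → ∃ i : Ω1 × List ℕ, pe y i ≠ pe y' i ∧ InT N i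
  kN : ∀ Z : Set Pt, InT N Z → InN N (KN Z)
  kw : ∀ Z : Set Pt, InT N Z → ∀ ρ, InN N ρ → ∀ q : QJ, InT N q → (∃ y, pN y = ρ ∧ q ∈ SK y ∧ y ∈ Z) →
    ∃ y, (pN y = ρ ∧ q ∈ SK y ∧ y ∈ Z) ∧ InT N y
  univ : InT N (Set.univ : Set Pt)

lemma pnOk_club : ∀ᶠ N in club (Un QJ), PnOk N := by
  have h1 : ∀ᶠ N in club (Un QJ), ∀ α : Ω1, InT N α → ∀ t : List ℕ, InT N ((α, t) : Ω1 × List ℕ) :=
    diagT (fun α => club_all (fun t => club_inT _))
  have h2 : ∀ᶠ N in club (Un QJ), ∀ i : Ω1 × List ℕ, InT N i → InT N i.1 := diagT (fun i => club_inT _)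
  have h3 : ∀ᶠ N in club (Un QJ), ∀ y : Pt, InT N y → ∀ ρ, InN N ρ → (∃ i, opN (iN i) (cR QJ (pe y i)) = ρ) →
      ∃ i, opN (iN i) (cR QJ (pe y i)) = ρ ∧ InT N i := by
    refine diagT (fun y => diagN (fun ρ => ?_))
    by_cases h : ∃ i, opN (iN i) (cR QJ (pe y i)) = ρ
    · obtain ⟨i, hi⟩ := h
      exact (club_inT i).mono (fun N hN _ => ⟨i, hi, hN⟩)
    · exact Filter.Eventually.of_forall (fun N h' => (h h').elim)
  have h4 : ∀ᶠ N in club (Un QJ), ∀ y : Pt, InT N y → ∀ i : Ω1 × List ℕ, InT N i → InT N (pe y i) :=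
    diagT (fun y => diagT (fun i => club_inT _))
  have h5 : ∀ᶠ N in club (Un QJ), ∀ y : Pt, InT N y → ∀ y' : Pt, InT N y' → y ≠ y' →
      ∃ i : Ω1 × List ℕ, pe y i ≠ pe y' i ∧ InT N i := by
    refine diagT (fun y => diagT (fun y' => ?_))
    by_cases h : y = y'
    · exact Filter.Eventually.of_forall (fun N h' => (h' h).elim)
    · have h' : ∃ i, pe y i ≠ pe y' i := by
        by_contra hcon
        push Not at hcon
        exact h (funext (fun b => funext (fun t => hcon (b, t))))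
      obtain ⟨i, hi⟩ := h'
      exact (club_inT i).mono (fun N hN _ => ⟨i, hi, hN⟩)
  have h6 : ∀ᶠ N in club (Un QJ), ∀ Z : Set Pt, InT N Z → InN N (KN Z) := diagT (fun Z => club_inN _)
  have h7 : ∀ᶠ N in club (Un QJ), ∀ Z : Set Pt, InT N Z → ∀ ρ, InN N ρ → ∀ q : QJ, InT N q →
      (∃ y, pN y = ρ ∧ q ∈ SK y ∧ y ∈ Z) → ∃ y, (pN y = ρ ∧ q ∈ SK y ∧ y ∈ Z) ∧ InT N y := by
    refine diagT (fun Z => diagN (fun ρ => diagT (fun q => ?_)))
    by_cases h : ∃ y, pN y = ρ ∧ q ∈ SK y ∧ y ∈ Z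
    · obtain ⟨y, hy⟩ := h
      exact (club_inT y).mono (fun N hN _ => ⟨y, hy, hN⟩)
    · exact Filter.Eventually.of_forall (fun N h' => (h h').elim)
  filter_upwards [fnOk_club iN, h1, h2, fnOk_club pN, h3, h4, h5, h6, h7, club_inT (Set.univ : Set Pt)] with
    N a1 a2 a3 a4 a5 a6 a7 a8 a9 a10
  exact ⟨a1, a2, a3, a4, a5, a6, a7, a8, a9, a10⟩

section
variable {N : Set (Un QJ)} {G : Set QJ} (ok : NOk N) (fok : FOk N) (zok : ZOk N) (cok : COk N) (ook : OOk N)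
  (re : ReOk N) (pn : PnOk N) (gen : GenF N G)

/-- The index `i` in the model. -/
noncomputable def iv (G : Set QJ) {i : Ω1 × List ℕ} (h : InT N i) : MM N G := vl G (pn.idx.fn i h)

/-- The index set in the model. -/
noncomputable def IM (G : Set QJ) : MM N G := vl G pn.idx.rg

/-- The point `y` in the model. -/
noncomputable def pv (G : Set QJ) {y : Pt} (h : InT N y) : MM N G := vl G (pn.pfn.fn y h)

/-- The set of all points of the compact set in `Z`, in the model. -/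
noncomputable def kv (G : Set QJ) {Z : Set Pt} (h : InT N Z) : MM N G := vl G (pn.kN Z h)

/-- The compact set in the model. -/
noncomputable def KM (G : Set QJ) : MM N G := kv pn G pn.univ

lemma mem_IM (htop : (⊤ : QJ) ∈ G) {z : MM N G} : EE z (IM pn G) ↔ ∃ i, ∃ h : InT N i, z = iv pn G h :=
  mem_rg htop pn.idx

include ok fok zok ook gen in
lemma iv_inj {i j : Ω1 × List ℕ} {hi : InT N i} {hj : InT N j} (h : iv pn G hi = iv pn G hj) : i = j := by
  have htop := top_mem ok gen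
  have h1 := op_pair ok zok gen (ook.ck _ (pn.i1 i hi)) (zok.nat (Encodable.encode i.2 : ℕ))
  have h2 := op_pair ok zok gen (ook.ck _ (pn.i1 j hj)) (zok.nat (Encodable.encode j.2 : ℕ))
  have h3 : (vl G (inN_op zok (ook.ck _ (pn.i1 i hi)) (zok.nat (Encodable.encode i.2 : ℕ))) : MM N G) =
      vl G (inN_op zok (ook.ck _ (pn.i1 j hj)) (zok.nat (Encodable.encode j.2 : ℕ))) := h
  rw [h3] at h1
  obtain ⟨h4, h5⟩ := pair_uniq ok fok zok gen h1 h2
  have e1 : i.1 = j.1 := ov_inj (ook := ook) (hα := pn.i1 i hi) (hβ := pn.i1 j hj) htop h4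
  have e2 : (Encodable.encode i.2 : ℕ) = Encodable.encode j.2 := nv_inj (zok := zok) htop h5
  exact Prod.ext e1 (Encodable.encode_injective e2)

include ok fok zok gen in
lemma rel_pv {y : Pt} (hy : InT N y) {x r : MM N G} : Rel (EE (N := N) (G := G)) (pv pn G hy) x r ↔
    ∃ i, ∃ h : InT N i, x = iv pn G h ∧ r = rv G re (pn.ev y hy i h) := by
  have htop := top_mem ok gen
  constructor
  · rintro ⟨p, hp, hpp⟩
    obtain ⟨i, h1, _, h3⟩ := mem_val.mp hp
    obtain ⟨j, h4, h5⟩ := pn.pw y hy _ h1 ⟨i, rfl⟩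
    have h6 := op_pair ok zok gen (pn.idx.fn j h5) (re.rg.fn _ (pn.ev y hy j h5))
    have h7 : p = vl G (inN_op zok (pn.idx.fn j h5) (re.rg.fn _ (pn.ev y hy j h5))) := by
      apply Subtype.ext
      rw [← h3]
      show val N G ((pN y).A i) = val N G (opN (iN j) (cR QJ (pe y j)))
      rw [h4]
    rw [h7] at hpp
    obtain ⟨h8, h9⟩ := pair_uniq ok fok zok gen hpp h6
    exact ⟨j, h5, h8, h9⟩
  · rintro ⟨i, h, rfl, rfl⟩
    refine ⟨vl G (inN_op zok (pn.idx.fn i h) (re.rg.fn _ (pn.ev y hy i h))), ?_,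
      op_pair ok zok gen (pn.idx.fn i h) (re.rg.fn _ (pn.ev y hy i h))⟩
    exact mem_val.mpr ⟨i, inN_op zok (pn.idx.fn i h) (re.rg.fn _ (pn.ev y hy i h)), htop, rfl⟩

include ok fok zok ook gen in
lemma rel_pv' {y : Pt} (hy : InT N y) {i : Ω1 × List ℕ} (h : InT N i) {r : MM N G} :
    Rel (EE (N := N) (G := G)) (pv pn G hy) (iv pn G h) r ↔ r = rv G re (pn.ev y hy i h) := by
  rw [rel_pv ok fok zok re pn gen]
  constructor
  · rintro ⟨j, hj, h1, rfl⟩
    obtain rfl := iv_inj ok fok zok ook pn gen h1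
    rfl
  · rintro rfl
    exact ⟨i, h, rfl, rfl⟩

include ok fok zok ook gen in
lemma isFun_pv {y : Pt} (hy : InT N y) : IsFun (EE (N := N) (G := G)) (pv pn G hy) (IM pn G) (RR G re) := by
  have htop := top_mem ok gen
  constructor
  · intro p hp
    obtain ⟨i, h1, _, h3⟩ := mem_val.mp hp
    obtain ⟨j, h4, h5⟩ := pn.pw y hy _ h1 ⟨i, rfl⟩
    have h6 := op_pair ok zok gen (pn.idx.fn j h5) (re.rg.fn _ (pn.ev y hy j h5))
    have h7 : p = vl G (inN_op zok (pn.idx.fn j h5) (re.rg.fn _ (pn.ev y hy j h5))) := by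
      apply Subtype.ext
      rw [← h3]
      show val N G ((pN y).A i) = val N G (opN (iN j) (cR QJ (pe y j)))
      rw [h4]
    refine ⟨iv pn G h5, rv G re (pn.ev y hy j h5), (mem_IM pn htop).mpr ⟨j, h5, rfl⟩, (mem_RR htop re).mpr ⟨_, _, rfl⟩, ?_⟩
    rw [h7]; exact h6
  · intro x hx
    obtain ⟨i, h, rfl⟩ := (mem_IM pn htop).mp hx
    exact ⟨_, (rel_pv' ok fok zok ook re pn gen hy h).mpr rfl, fun r hr => (rel_pv' ok fok zok ook re pn gen hy h).mp hr⟩

include ok fok zok ook cok re gen in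
lemma pv_inj {y y' : Pt} {hy : InT N y} {hy' : InT N y'} (h : pv pn G hy = pv pn G hy') : y = y' := by
  have htop := top_mem ok gen
  by_contra hne
  obtain ⟨i, h1, h2⟩ := pn.dif y hy y' hy' hne
  apply h1
  have h3 := (rel_pv' ok fok zok ook re pn gen hy h2).mpr rfl
  rw [h] at h3
  have h4 := (rel_pv' ok fok zok ook re pn gen hy' h2).mp h3
  exact rv_inj (hx := pn.ev y hy i h2) (hy := pn.ev y' hy' i h2) zok htop cok re h4

include ok fok zok ook gen in
/-- A function of the model with the values of `y` is equal to `y`. -/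
lemma eq_pv {y : Pt} (hy : InT N y) {z : MM N G} (hz : IsFun (EE (N := N) (G := G)) z (IM pn G) (RR G re))
    (h : ∀ i (h : InT N i), Rel (EE (N := N) (G := G)) z (iv pn G h) (rv G re (pn.ev y hy i h))) : z = pv pn G hy := by
  have htop := top_mem ok gen
  letI := mdl ok fok zok gen
  haveI : ZFU.Pure (MM N G) := zPure (zf ok fok zok gen)
  refine mm_ext (fun p => ?_)
  constructor
  · intro hp
    obtain ⟨x, r, hx, hr, hpr⟩ := hz.1 p hp
    obtain ⟨i, hi, rfl⟩ := (mem_IM pn htop).mp hx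
    obtain ⟨r', hr', hu⟩ := hz.2 (iv pn G hi) hx
    have h1 : r = rv G re (pn.ev y hy i hi) := (hu r ⟨p, hp, hpr⟩).trans (hu _ (h i hi)).symm
    rw [h1] at hpr
    obtain ⟨p', hp', hpp'⟩ := (rel_pv' ok fok zok ook re pn gen hy hi (r := rv G re (pn.ev y hy i hi))).mpr rfl
    have e : p = p' := (pair_iff.mp hpr).trans (pair_iff.mp hpp').symm
    rw [e]; exact hp'
  · intro hp
    obtain ⟨x, r, hx, hr, hpr⟩ := (isFun_pv ok fok zok ook re pn gen hy).1 p hp
    obtain ⟨i, hi, rfl⟩ := (mem_IM pn htop).mp hx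
    have h1 := (rel_pv' ok fok zok ook re pn gen hy hi).mp ⟨p, hp, hpr⟩
    rw [h1] at hpr
    obtain ⟨p', hp', hpp'⟩ := h i hi
    have e : p = p' := (pair_iff.mp hpr).trans (pair_iff.mp hpp').symm
    rw [e]; exact hp'

lemma mem_kv (gen : GenF N G) {Z : Set Pt} (hZ : InT N Z) {z : MM N G} :
    EE z (kv pn G hZ) ↔ ∃ y, ∃ h : InT N y, Ht G (SK y) ∧ y ∈ Z ∧ z = pv pn G h := by
  constructor
  · intro hz
    obtain ⟨⟨y, q, hq⟩, h1, h2, h3⟩ := mem_val.mp hz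
    obtain ⟨y', ⟨h4, h5, h6⟩, h7⟩ := pn.kw Z hZ _ h1 q (gen.sub q h2) ⟨y, rfl, hq⟩
    refine ⟨y', h7, ⟨q, h2, h5⟩, h6, Subtype.ext ?_⟩
    rw [← h3]
    show val N G (pN y) = val N G (pN y')
    rw [h4]
    rfl
  · rintro ⟨y, h, ⟨q, hq, hqS⟩, hyZ, rfl⟩
    exact mem_val.mpr ⟨⟨y, q, hqS, hyZ⟩, pn.pfn.fn y h, hq, rfl⟩

lemma mem_KM (gen : GenF N G) {z : MM N G} : EE z (KM pn G) ↔ ∃ y, ∃ h : InT N y, Ht G (SK y) ∧ z = pv pn G h := by
  refine (mem_kv pn gen pn.univ).trans ?_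
  simp

include ok fok zok ook cok re gen in
lemma pv_mem_kv {Z : Set Pt} (hZ : InT N Z) {y : Pt} (h : InT N y) :
    EE (pv pn G h) (kv pn G hZ) ↔ Ht G (SK y) ∧ y ∈ Z := by
  rw [mem_kv pn gen hZ]
  constructor
  · rintro ⟨y', h', h1, h2, h3⟩
    obtain rfl := pv_inj ok fok zok cok ook re pn gen h3
    exact ⟨h1, h2⟩
  · rintro ⟨h1, h2⟩
    exact ⟨y, h, h1, h2, rfl⟩

include ok fok zok ook cok re gen in
lemma pv_mem_KM {y : Pt} (h : InT N y) : EE (pv pn G h) (KM pn G) ↔ Ht G (SK y) := by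
  refine (pv_mem_kv ok fok zok cok ook re pn gen pn.univ h).trans ?_
  simp

end

end Pool.Agent.H55.Jay
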