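import Pool.Agent.H55.Sig.Sig2

set_option autoImplicit false
set_option linter.all false

/-!
# The real numbers of a generic extension without new sets of natural numbers
-/

namespace Pool.Agent.H55.Jay

open Pool.Agent.H55.SC Pool.Agent.H55.ZFU Pool.Agent.H55.Lav Pool.Agent.H55.Sig

variable {Q : Type} [Preorder Q] [OrderTop Q]

/-- The cut of a real number, coded by a set of natural numbers. -/
def cut (x : ℝ) : Set ℕ := {n | (((Denumerable.eqv ℚ).symm n : ℚ) : ℝ) < x}

lemma mem_cut {x : ℝ} {q : ℚ} : Denumerable.eqv ℚ q ∈ cut x ↔ (q : ℝ) < x := by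
  show (((Denumerable.eqv ℚ).symm (Denumerable.eqv ℚ q) : ℚ) : ℝ) < x ↔ _
  rw [Equiv.symm_apply_apply]

lemma cut_inj {x y : ℝ} (h : cut x = cut y) : x = y := by
  apply le_antisymm
  · by_contra hcon
    push Not at hcon
    obtain ⟨q, h1, h2⟩ := exists_rat_btwn hcon
    have h3 : Denumerable.eqv ℚ q ∈ cut x := mem_cut.mpr h2
    rw [h, mem_cut] at h3
    linarith
  · by_contra hcon
    push Not at hcon
    obtain ⟨q, h1, h2⟩ := exists_rat_btwn hcon
    have h3 : Denumerable.eqv ℚ q ∈ cut y := mem_cut.mpr h2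
    rw [← h, mem_cut] at h3
    linarith

/-- The name of a real number. -/
def cR (Q : Type) [Preorder Q] [OrderTop Q] (x : ℝ) : Nm Q := ckS Q (cut x)

/-- Closure properties of `N` used for real numbers. -/
structure ReOk (N : Set (Un Q)) : Prop where
  rg : FnOk N (cR Q)
  ct : ∀ x : ℝ, InT N x → InT N (cut x)
  ctw : ∀ A : Set ℕ, InT N A → (∃ x, cut x = A) → ∃ x, cut x = A ∧ InT N x
  zero : InT N (0 : ℝ)
  one : InT N (1 : ℝ)
  add : ∀ x : ℝ, InT N x → ∀ y : ℝ, InT N y → InT N (x + y)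
  mul : ∀ x : ℝ, InT N x → ∀ y : ℝ, InT N y → InT N (x * y)
  neg : ∀ x : ℝ, InT N x → InT N (-x)
  inv : ∀ x : ℝ, InT N x → InT N x⁻¹
  pr : ∀ x : ℝ, InT N x → ∀ y : ℝ, InT N y → InT N (x, y)
  p1 : ∀ p : ℝ × ℝ, InT N p → InT N p.1 ∧ InT N p.2
  addN : FnOk N (fun p : ℝ × ℝ => opN (opN (cR Q p.1) (cR Q p.2)) (cR Q (p.1 + p.2)))
  mulN : FnOk N (fun p : ℝ × ℝ => opN (opN (cR Q p.1) (cR Q p.2)) (cR Q (p.1 * p.2)))
  ltN : FnOk N (fun p : {p : ℝ × ℝ // p.1 < p.2} => opN (cR Q p.1.1) (cR Q p.1.2))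
  lt : ∀ p : ℝ × ℝ, InT N p → ∀ h : p.1 < p.2, InT N (⟨p, h⟩ : {p : ℝ × ℝ // p.1 < p.2})
  lt1 : ∀ p : {p : ℝ × ℝ // p.1 < p.2}, InT N p → InT N p.1

lemma reOk_club : ∀ᶠ N in club (Un Q), ReOk N := by
  have h1 : ∀ᶠ N in club (Un Q), ∀ x : ℝ, InT N x → InT N (cut x) := diagT (fun x => club_inT _)
  have h2 : ∀ᶠ N in club (Un Q), ∀ A : Set ℕ, InT N A → (∃ x, cut x = A) → ∃ x, cut x = A ∧ InT N x := by
    refine diagT (fun A => ?_)
    by_cases h : ∃ x, cut x = A
    · obtain ⟨x, hx⟩ := h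
      exact (club_inT x).mono (fun N hN _ => ⟨x, hx, hN⟩)
    · exact Filter.Eventually.of_forall (fun N h' => (h h').elim)
  have h3 : ∀ᶠ N in club (Un Q), ∀ x : ℝ, InT N x → ∀ y : ℝ, InT N y → InT N (x + y) :=
    diagT (fun x => diagT (fun y => club_inT _))
  have h4 : ∀ᶠ N in club (Un Q), ∀ x : ℝ, InT N x → ∀ y : ℝ, InT N y → InT N (x * y) :=
    diagT (fun x => diagT (fun y => club_inT _))
  have h5 : ∀ᶠ N in club (Un Q), ∀ x : ℝ, InT N x → InT N (-x) := diagT (fun x => club_inT _)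
  have h6 : ∀ᶠ N in club (Un Q), ∀ x : ℝ, InT N x → InT N x⁻¹ := diagT (fun x => club_inT _)
  have h7 : ∀ᶠ N in club (Un Q), ∀ x : ℝ, InT N x → ∀ y : ℝ, InT N y → InT N (x, y) :=
    diagT (fun x => diagT (fun y => club_inT _))
  have h8 : ∀ᶠ N in club (Un Q), ∀ p : ℝ × ℝ, InT N p → InT N p.1 ∧ InT N p.2 :=
    diagT (fun x => (club_inT _).and (club_inT _))
  have h9 : ∀ᶠ N in club (Un Q), ∀ p : ℝ × ℝ, InT N p → ∀ h : p.1 < p.2, InT N (⟨p, h⟩ : {p : ℝ × ℝ // p.1 < p.2}) := by
    refine diagT (fun p => ?_)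
    by_cases h : p.1 < p.2
    · exact (club_inT (⟨p, h⟩ : {p : ℝ × ℝ // p.1 < p.2})).mono (fun N hN _ => hN)
    · exact Filter.Eventually.of_forall (fun N h' => (h h').elim)
  have h10 : ∀ᶠ N in club (Un Q), ∀ p : {p : ℝ × ℝ // p.1 < p.2}, InT N p → InT N p.1 := diagT (fun p => club_inT _)
  filter_upwards [fnOk_club (cR Q), h1, h2, club_inT (0 : ℝ), club_inT (1 : ℝ), h3, h4, h5, h6, h7, h8,
    fnOk_club (fun p : ℝ × ℝ => opN (opN (cR Q p.1) (cR Q p.2)) (cR Q (p.1 + p.2))),
    fnOk_club (fun p : ℝ × ℝ => opN (opN (cR Q p.1) (cR Q p.2)) (cR Q (p.1 * p.2))),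
    fnOk_club (fun p : {p : ℝ × ℝ // p.1 < p.2} => opN (cR Q p.1.1) (cR Q p.1.2)), h9, h10] with
    N a1 a2 a3 a4 a5 a6 a7 a8 a9 a10 a11 a12 a13 a14 a15 a16
  exact ⟨a1, a2, a3, a4, a5, a6, a7, a8, a9, a10, a11, a12, a13, a14, a15, a16⟩

section
variable {N : Set (Un Q)} {G : Set Q}

/-- The real number `x` of the model. -/
noncomputable def rv (G : Set Q) (re : ReOk N) {x : ℝ} (h : InT N x) : MM N G := vl G (re.rg.fn x h)

/-- The set of real numbers of the model. -/
noncomputable def RR (G : Set Q) (re : ReOk N) : MM N G := vl G re.rg.rg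

lemma mem_RR (htop : (⊤ : Q) ∈ G) (re : ReOk N) {z : MM N G} : EE z (RR G re) ↔ ∃ x, ∃ h : InT N x, z = rv G re h :=
  mem_rg htop re.rg

lemma mem_rv (zok : ZOk N) (htop : (⊤ : Q) ∈ G) (cok : COk N) (re : ReOk N) {x : ℝ} (h : InT N x) {z : MM N G} :
    EE z (rv G re h) ↔ ∃ n ∈ cut x, z = nv G zok n :=
  mem_sv (zok := zok) htop cok (re.ct x h)

lemma rv_inj (zok : ZOk N) (htop : (⊤ : Q) ∈ G) (cok : COk N) (re : ReOk N) {x y : ℝ} {hx : InT N x} {hy : InT N y}
    (h : rv G re hx = rv G re hy) : x = y := by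
  apply cut_inj
  exact sv_inj (hA := re.ct x hx) (hB := re.ct y hy) htop cok zok h

/-- The field of all real numbers in `N`. -/
def RF (re : ReOk N) : Subfield ℝ where
  carrier := {x | InT N x}
  mul_mem' := fun {x y} hx hy => re.mul x hx y hy
  one_mem' := re.one
  add_mem' := fun {x y} hx hy => re.add x hx y hy
  zero_mem' := re.zero
  neg_mem' := fun {x} hx => re.neg x hx
  inv_mem' := fun x hx => re.inv x hx

/-- The value of a real number of the model. -/
noncomputable def rr (htop : (⊤ : Q) ∈ G) (re : ReOk N) (x : El (EE (N := N) (G := G)) (RR G re)) : RF re :=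
  ⟨((mem_RR htop re).mp x.2).choose, ((mem_RR htop re).mp x.2).choose_spec.choose⟩

lemma rr_spec (htop : (⊤ : Q) ∈ G) (re : ReOk N) (x : El (EE (N := N) (G := G)) (RR G re)) :
    x.1 = rv G re (rr htop re x).2 := ((mem_RR htop re).mp x.2).choose_spec.choose_spec

lemma rr_eq (zok : ZOk N) (htop : (⊤ : Q) ∈ G) (cok : COk N) (re : ReOk N) (x : El (EE (N := N) (G := G)) (RR G re))
    {y : ℝ} {hy : InT N y} (h : x.1 = rv G re hy) : (rr htop re x : ℝ) = y :=
  rv_inj zok htop cok re ((rr_spec htop re x).symm.trans h)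

/-- The real numbers of the model and the real numbers in `N`. -/
noncomputable def rrE (zok : ZOk N) (htop : (⊤ : Q) ∈ G) (cok : COk N) (re : ReOk N) :
    El (EE (N := N) (G := G)) (RR G re) ≃ RF re where
  toFun := rr htop re
  invFun := fun x => ⟨rv G re x.2, (mem_RR htop re).mpr ⟨x.1, x.2, rfl⟩⟩
  left_inv := fun x => Subtype.ext (rr_spec htop re x).symm
  right_inv := fun x => Subtype.ext (rr_eq (hy := x.2) zok htop cok re _ rfl)

/-- The field operations on the real numbers of the model. -/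
@[reducible] noncomputable def rfield (zok : ZOk N) (htop : (⊤ : Q) ∈ G) (cok : COk N) (re : ReOk N) :
    Field (El (EE (N := N) (G := G)) (RR G re)) := (rrE zok htop cok re).field

/-- The order on the real numbers of the model. -/
@[reducible] noncomputable def rorder (zok : ZOk N) (htop : (⊤ : Q) ∈ G) (cok : COk N) (re : ReOk N) :
    LinearOrder (El (EE (N := N) (G := G)) (RR G re)) :=
  LinearOrder.lift' (rrE zok htop cok re) (rrE zok htop cok re).injective

section ops
variable (zok : ZOk N) (htop : (⊤ : Q) ∈ G) (cok : COk N) (re : ReOk N)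

lemma rr_add (x y : El (EE (N := N) (G := G)) (RR G re)) : letI := rfield zok htop cok re;
    rr htop re (x + y) = rr htop re x + rr htop re y :=
  (rrE zok htop cok re).apply_symm_apply (rr htop re x + rr htop re y)

lemma rr_mul (x y : El (EE (N := N) (G := G)) (RR G re)) : letI := rfield zok htop cok re;
    rr htop re (x * y) = rr htop re x * rr htop re y :=
  (rrE zok htop cok re).apply_symm_apply (rr htop re x * rr htop re y)

lemma rr_sub (x y : El (EE (N := N) (G := G)) (RR G re)) : letI := rfield zok htop cok re;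
    rr htop re (x - y) = rr htop re x - rr htop re y :=
  (rrE zok htop cok re).apply_symm_apply (rr htop re x - rr htop re y)

lemma rr_one : letI := rfield zok htop cok re;
    rr htop re (1 : El (EE (N := N) (G := G)) (RR G re)) = 1 :=
  (rrE zok htop cok re).apply_symm_apply (1 : RF re)

lemma rr_zero : letI := rfield zok htop cok re;
    rr htop re (0 : El (EE (N := N) (G := G)) (RR G re)) = 0 :=
  (rrE zok htop cok re).apply_symm_apply (0 : RF re)

lemma rr_lt {x y : El (EE (N := N) (G := G)) (RR G re)} : letI := rorder zok htop cok re;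
    x < y ↔ rr htop re x < rr htop re y := by
  letI := rorder zok htop cok re
  exact Iff.rfl

lemma rr_le {x y : El (EE (N := N) (G := G)) (RR G re)} : letI := rorder zok htop cok re;
    x ≤ y ↔ rr htop re x ≤ rr htop re y := by
  letI := rorder zok htop cok re
  exact Iff.rfl

include zok cok in
lemma rr_inj {x y : El (EE (N := N) (G := G)) (RR G re)} (h : rr htop re x = rr htop re y) : x = y :=
  (rrE zok htop cok re).injective h

lemma rstrict : letI := rfield zok htop cok re; letI := rorder zok htop cok re;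
    IsStrictOrderedRing (El (EE (N := N) (G := G)) (RR G re)) := by
  letI := rfield zok htop cok re
  letI := rorder zok htop cok re
  have h1 : IsOrderedAddMonoid (El (EE (N := N) (G := G)) (RR G re)) := ⟨fun a b hab c => by
    rw [rr_le zok htop cok re, rr_add zok htop cok re, rr_add zok htop cok re]
    have := (rr_le zok htop cok re).mp hab
    exact add_le_add_left this _, fun a b hab c => by
    rw [rr_le zok htop cok re, rr_add zok htop cok re, rr_add zok htop cok re]
    have := (rr_le zok htop cok re).mp hab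
    exact add_le_add_right this _⟩
  have h2 : ZeroLEOneClass (El (EE (N := N) (G := G)) (RR G re)) := ⟨by
    rw [rr_le zok htop cok re, rr_zero zok htop cok re, rr_one zok htop cok re]
    exact zero_le_one⟩
  refine IsStrictOrderedRing.of_mul_pos (fun a b ha hb => ?_)
  rw [rr_lt zok htop cok re, rr_zero zok htop cok re] at ha hb ⊢
  rw [rr_mul zok htop cok re]
  exact mul_pos ha hb

end ops

end

end Pool.Agent.H55.Jay
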